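import Pool.Agent.Lib.P50fc31.Defs

/-!
# Infection paths: basic facts and the crossing lemma
-/

set_option autoImplicit false

open MeasureTheory ProbabilityTheory Set
open scoped NNReal ENNReal

namespace P50fc31

variable {ω ω' : Config} {S S' : Set ℤ}

theorem mem_up {c z : ℤ} : z ∈ up c ↔ c ≤ z := Iff.rfl

theorem mem_dn {c z : ℤ} : z ∈ dn c ↔ z ≤ c := Iff.rfl

theorem Calm.mono {x : ℤ} {s t s' t' : ℝ} (h : Calm ω x s t) (hs : s ≤ s') (ht : t' ≤ t) :
    Calm ω x s' t' := fun u hu hsu => ht.trans_lt (h u hu (hs.trans_lt hsu))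

theorem Calm.trans {x : ℤ} {s u t : ℝ} (h : Calm ω x s u) (h' : Calm ω x u t) :
    Calm ω x s t := fun v hv hsv => h' v hv (h v hv hsv)

theorem calm_self (ω : Config) (x : ℤ) (s : ℝ) : Calm ω x s s := fun _ _ h => h

theorem Path.mem_left {x y : ℤ} {s t : ℝ} (h : Path ω S x s y t) : x ∈ S := by
  cases h <;> assumption

theorem Path.mem_right {x y : ℤ} {s t : ℝ} (h : Path ω S x s y t) : y ∈ S := by
  induction h with
  | stay h1 _ _ => exact h1
  | right _ _ _ _ _ ih => exact ih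
  | left _ _ _ _ _ ih => exact ih

theorem Path.le {x y : ℤ} {s t : ℝ} (h : Path ω S x s y t) : s ≤ t := by
  induction h with
  | stay _ h2 _ => exact h2
  | right _ h2 _ _ _ ih => exact h2.trans ih
  | left _ h2 _ _ _ ih => exact h2.trans ih

theorem Path.refl {x : ℤ} (hx : x ∈ S) (s : ℝ) : Path ω S x s x s :=
  Path.stay hx le_rfl (calm_self ω x s)

theorem Path.prepend {x y : ℤ} {r s t : ℝ} (h : Path ω S x s y t) (hrs : r ≤ s)
    (hc : Calm ω x r s) : Path ω S x r y t := by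
  cases h with
  | stay h1 h2 h3 => exact Path.stay h1 (hrs.trans h2) (hc.trans h3)
  | right h1 h2 h3 h4 h5 => exact Path.right h1 (hrs.trans h2) (hc.trans h3) h4 h5
  | left h1 h2 h3 h4 h5 => exact Path.left h1 (hrs.trans h2) (hc.trans h3) h4 h5

theorem Path.trans {x y z : ℤ} {s t u : ℝ} (h : Path ω S x s y t) (h' : Path ω S y t z u) :
    Path ω S x s z u := by
  induction h with
  | stay _ h2 h3 => exact h'.prepend h2 h3
  | right h1 h2 h3 h4 _ ih => exact Path.right h1 h2 h3 h4 (ih h')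
  | left h1 h2 h3 h4 _ ih => exact Path.left h1 h2 h3 h4 (ih h')

theorem Path.mono {x y : ℤ} {s t : ℝ} (h : Path ω S x s y t) (hS : S ⊆ S') :
    Path ω S' x s y t := by
  induction h with
  | stay h1 h2 h3 => exact Path.stay (hS h1) h2 h3
  | right h1 h2 h3 h4 _ ih => exact Path.right (hS h1) h2 h3 h4 ih
  | left h1 h2 h3 h4 _ ih => exact Path.left (hS h1) h2 h3 h4 ih

theorem Path.cut {x y : ℤ} {s t : ℝ} (h : Path ω S x s y t) {c : ℝ} (hs : s ≤ c) (ht : c ≤ t) :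
    ∃ z, Path ω S x s z c ∧ Path ω S z c y t := by
  induction h with
  | @stay x s t h1 h2 h3 =>
    exact ⟨x, Path.stay h1 hs (h3.mono le_rfl ht), Path.stay h1 ht (h3.mono hs le_rfl)⟩
  | @right x s u y t h1 h2 h3 h4 h5 ih =>
    rcases le_total c u with hc | hc
    · exact ⟨x, Path.stay h1 hs (h3.mono le_rfl hc),
        Path.right h1 hc (h3.mono hs le_rfl) h4 h5⟩
    · obtain ⟨z, hz, hz'⟩ := ih hc ht
      exact ⟨z, Path.right h1 h2 h3 h4 hz, hz'⟩
  | @left x s u y t h1 h2 h3 h4 h5 ih =>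
    rcases le_total c u with hc | hc
    · exact ⟨x, Path.stay h1 hs (h3.mono le_rfl hc),
        Path.left h1 hc (h3.mono hs le_rfl) h4 h5⟩
    · obtain ⟨z, hz, hz'⟩ := ih hc ht
      exact ⟨z, Path.left h1 h2 h3 h4 hz, hz'⟩

/-- paths inside `S` only depend on the marks inside `S` -/
theorem Path.congr {x y : ℤ} {s t : ℝ} (h : Path ω S x s y t)
    (h1 : ∀ x ∈ S, marks ω (Kind.recover, x) = marks ω' (Kind.recover, x))
    (h2 : ∀ x ∈ S, x + 1 ∈ S → marks ω (Kind.right, x) = marks ω' (Kind.right, x))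
    (h3 : ∀ x ∈ S, x - 1 ∈ S → marks ω (Kind.left, x) = marks ω' (Kind.left, x)) :
    Path ω' S x s y t := by
  have hc : ∀ x ∈ S, ∀ s t, Calm ω x s t → Calm ω' x s t := by
    intro x hx s t hc u hu hsu
    rw [← h1 x hx] at hu
    exact hc u hu hsu
  induction h with
  | stay k1 k2 k3 => exact Path.stay k1 k2 (hc _ k1 _ _ k3)
  | right k1 k2 k3 k4 k5 ih =>
    refine Path.right k1 k2 (hc _ k1 _ _ k3) ?_ ih
    rwa [← h2 _ k1 k5.mem_left]
  | left k1 k2 k3 k4 k5 ih =>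
    refine Path.left k1 k2 (hc _ k1 _ _ k3) ?_ ih
    rwa [← h3 _ k1 k5.mem_left]

/-- a path from `b ≥ a` to `b' ≤ a` passes through `a` -/
theorem Path.hit {a b b' : ℤ} {s t : ℝ} (h : Path ω S b s b' t) (hb : a ≤ b) (hb' : b' ≤ a) :
    ∃ τ, Path ω S b s a τ ∧ Path ω S a τ b' t := by
  induction h with
  | @stay x s t h1 h2 h3 =>
    have : x = a := le_antisymm hb' hb
    subst this
    exact ⟨s, Path.refl h1 s, Path.stay h1 h2 h3⟩
  | @right x s u y t h1 h2 h3 h4 h5 ih =>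
    rcases hb.eq_or_lt with hab | hab
    · subst hab
      exact ⟨s, Path.refl h1 s, Path.right h1 h2 h3 h4 h5⟩
    · obtain ⟨τ, k1, k2⟩ := ih (by omega) hb'
      exact ⟨τ, Path.right h1 h2 h3 h4 k1, k2⟩
  | @left x s u y t h1 h2 h3 h4 h5 ih =>
    rcases hb.eq_or_lt with hab | hab
    · subst hab
      exact ⟨s, Path.refl h1 s, Path.left h1 h2 h3 h4 h5⟩
    · obtain ⟨τ, k1, k2⟩ := ih (by omega) hb'
      exact ⟨τ, Path.left h1 h2 h3 h4 k1, k2⟩

/-- two paths that change their order meet -/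
theorem Path.cross {a a' b b' : ℤ} {s t : ℝ} (hA : Path ω S a s a' t)
    (hB : Path ω S b s b' t) (hab : a ≤ b) (hab' : b' ≤ a') :
    ∃ y τ, Path ω S a s y τ ∧ Path ω S y τ a' t ∧ Path ω S b s y τ ∧ Path ω S y τ b' t := by
  induction hA generalizing b with
  | @stay x s t h1 h2 h3 =>
    obtain ⟨τ, k1, k2⟩ := hB.hit hab hab'
    exact ⟨x, τ, Path.stay h1 k1.le (h3.mono le_rfl k2.le),
      Path.stay h1 k2.le (h3.mono k1.le le_rfl), k1, k2⟩
  | @right x s u y t h1 h2 h3 h4 h5 ih =>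
    obtain ⟨z, k1, k2⟩ := hB.cut h2 h5.le
    rcases le_or_gt z x with hz | hz
    · obtain ⟨τ, m1, m2⟩ := k1.hit hab hz
      exact ⟨x, τ, Path.stay h1 m1.le (h3.mono le_rfl m2.le),
        Path.right h1 m2.le (h3.mono m1.le le_rfl) h4 h5, m1, m2.trans k2⟩
    · obtain ⟨y', τ, m1, m2, m3, m4⟩ := ih k2 (by omega) hab'
      exact ⟨y', τ, Path.right h1 h2 h3 h4 m1, m2, k1.trans m3, m4⟩
  | @left x s u y t h1 h2 h3 h4 h5 ih =>
    obtain ⟨z, k1, k2⟩ := hB.cut h2 h5.le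
    rcases le_or_gt z x with hz | hz
    · obtain ⟨τ, m1, m2⟩ := k1.hit hab hz
      exact ⟨x, τ, Path.stay h1 m1.le (h3.mono le_rfl m2.le),
        Path.left h1 m2.le (h3.mono m1.le le_rfl) h4 h5, m1, m2.trans k2⟩
    · obtain ⟨y', τ, m1, m2, m3, m4⟩ := ih k2 (by omega) hab'
      exact ⟨y', τ, Path.left h1 h2 h3 h4 m1, m2, k1.trans m3, m4⟩

/-- two overlapping excursions from `c` to `c` inside the sites `≥ c` can be concatenated -/
theorem Path.chain {c : ℤ} {r r' s s' : ℝ} (hB : Path ω (up c) c r c r')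
    (hA : Path ω (up c) c s c s') (h1 : r ≤ s) (h2 : s ≤ r') (h3 : r' ≤ s') :
    Path ω (up c) c r c s' := by
  obtain ⟨b, k1, k2⟩ := hB.cut h1 h2
  obtain ⟨a, m1, m2⟩ := hA.cut h2 h3
  obtain ⟨y, τ, n1, n2, n3, n4⟩ := m1.cross k2 k2.mem_left m1.mem_right
  exact k1.trans (n3.trans (n2.trans m2))

/-- if all windows from `K` on are crossed then there are excursions from a time `≤ K` to arbitrarily large times -/
theorem exists_long {c : ℤ} {K : ℕ} (h : ∀ k, K ≤ k → Crossed ω c k) (n : ℕ) :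
    ∃ s t : ℝ, 0 ≤ s ∧ s ≤ K ∧ (n : ℝ) ≤ t ∧ Path ω (up c) c s c t := by
  have main : ∀ j : ℕ, ∃ s t : ℝ, 0 ≤ s ∧ s ≤ K ∧ ((K + j : ℕ) : ℝ) ≤ t ∧
      Path ω (up c) c s c t := by
    intro j
    induction j with
    | zero =>
      obtain ⟨s, t, h1, h2, h3, h4⟩ := h K le_rfl
      exact ⟨s, t, h1, h2, by push_cast; linarith, h4⟩
    | succ j ih =>
      obtain ⟨s, t, h1, h2, h3, h4⟩ := ih
      obtain ⟨s', t', k1, k2, k3, k4⟩ := h (K + j) (by omega)
      have e1 : ((K + (j + 1) : ℕ) : ℝ) = ((K + j : ℕ) : ℝ) + 1 := by push_cast; ring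
      rw [e1]
      rcases le_total s' K with hs | hs
      · exact ⟨s', t', k1, hs, k3, k4⟩
      · rcases le_total t' t with ht | ht
        · exact ⟨s, t, h1, h2, k3.trans ht, h4⟩
        · exact ⟨s, t', h1, h2, k3, h4.chain k4 (h2.trans hs) (k2.trans h3) ht⟩
  obtain ⟨s, t, h1, h2, h3, h4⟩ := main n
  exact ⟨s, t, h1, h2, le_trans (by push_cast; linarith [(Nat.cast_nonneg K : (0 : ℝ) ≤ K)]) h3,
    h4⟩

end P50fc31
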