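import Mathlib

/-!
# The contact process on the integers with a finite inhomogeneity: definitions

Harris' graphical representation.  For every site `x` there are three independent Poisson processes of marks on
`(0, ∞)`: recovery marks, arrows from `x` to `x + 1` and arrows from `x` to `x - 1`.  A Poisson process of rate
`r` is given by the marks in the unit windows `(k, k + 1)`: independent Poisson(`r`) numbers of independent
uniformly distributed points.
-/

set_option autoImplicit false

open MeasureTheory ProbabilityTheory Set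
open scoped NNReal ENNReal

namespace P50fc31

/-- the kinds of marks: recoveries, arrows from `x` to `x + 1`, arrows from `x` to `x - 1` -/
inductive Kind
  | recover
  | right
  | left
  deriving DecidableEq

/-- the types of marks: the kind and the site -/
abbrev MT := Kind × ℤ

/-- the marks of one type in one time window: their number and their positions in the window -/
abbrev Cell := ℕ × (ℕ → ℝ)

/-- the marks of all types in all time windows -/
abbrev Config := MT × ℕ → Cell

/-- the uniform distribution on `(0, 1)` -/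
noncomputable def unif : Measure ℝ := volume.restrict (Ioo 0 1)

/-- the law of the marks of rate `r` in one time window -/
noncomputable def cellLaw (r : ℝ≥0) : Measure Cell :=
  (poissonMeasure r).prod (Measure.infinitePi fun _ : ℕ => unif)

/-- the law of all marks, for the rates `ρ` -/
noncomputable def law (ρ : MT → ℝ≥0) : Measure Config :=
  Measure.infinitePi fun i : MT × ℕ => cellLaw (ρ i.1)

/-- the times of the marks of type `m` -/
def marks (ω : Config) (m : MT) : Set ℝ :=
  {t | ∃ k n : ℕ, n < (ω (m, k)).1 ∧ 0 < (ω (m, k)).2 n ∧ (ω (m, k)).2 n < 1 ∧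
    t = k + (ω (m, k)).2 n}

/-- there is no recovery mark at `x` in the time interval `(s, t]` -/
def Calm (ω : Config) (x : ℤ) (s t : ℝ) : Prop :=
  ∀ u ∈ marks ω (Kind.recover, x), s < u → t < u

/-- `Path ω S x s y t`: there is an infection path inside `S` from `x` at time `s` to `y` at time `t` -/
inductive Path (ω : Config) (S : Set ℤ) : ℤ → ℝ → ℤ → ℝ → Prop
  | stay {x : ℤ} {s t : ℝ} : x ∈ S → s ≤ t → Calm ω x s t → Path ω S x s x t
  | right {x : ℤ} {s u : ℝ} {y : ℤ} {t : ℝ} : x ∈ S → s ≤ u → Calm ω x s u →
      u ∈ marks ω (Kind.right, x) → Path ω S (x + 1) u y t → Path ω S x s y t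
  | left {x : ℤ} {s u : ℝ} {y : ℤ} {t : ℝ} : x ∈ S → s ≤ u → Calm ω x s u →
      u ∈ marks ω (Kind.left, x) → Path ω S (x - 1) u y t → Path ω S x s y t

/-- the infected sites at time `t` of the process inside `S` started from `A` at time `0` -/
def infected (ω : Config) (S A : Set ℤ) (t : ℝ) : Set ℤ :=
  {y | ∃ x ∈ A, Path ω S x 0 y t}

/-- the homogeneous rates: recovery rate `1`, infection rates `lam` -/
def hom (lam : ℝ≥0) : MT → ℝ≥0
  | (Kind.recover, _) => 1
  | (Kind.right, _) => lam
  | (Kind.left, _) => lam

/-- the probability that the contact process on the integers started from `{0}` never becomes empty -/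
noncomputable def theta (lam : ℝ≥0) : ℝ≥0∞ :=
  law (hom lam) {ω | ∀ t : ℝ, 0 ≤ t → (infected ω univ {0} t).Nonempty}

/-- the process inside `S` started from `x` at time `s` never becomes empty -/
def Surv (ω : Config) (S : Set ℤ) (x : ℤ) (s : ℝ) : Prop :=
  ∀ n : ℕ, s ≤ n → ∃ y, Path ω S x s y n

/-- the sites `≥ c` -/
def up (c : ℤ) : Set ℤ := {z | c ≤ z}

/-- the sites `≤ c` -/
def dn (c : ℤ) : Set ℤ := {z | z ≤ c}

/-- the time interval `[k, l]` is crossed from the right: an infection path inside the sites `≥ c` from `c`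
to `c` starts at a time `≤ k` and ends at a time `≥ l` -/
def CrossR (ω : Config) (c : ℤ) (k l : ℕ) : Prop :=
  ∃ s t : ℝ, 0 ≤ s ∧ s ≤ k ∧ (l : ℝ) ≤ t ∧ Path ω (up c) c s c t

/-- the time interval `[k, l]` is crossed from the left: an infection path inside the sites `≤ c` from `c`
to `c` starts at a time `≤ k` and ends at a time `≥ l` -/
def CrossL (ω : Config) (c : ℤ) (k l : ℕ) : Prop :=
  ∃ s t : ℝ, 0 ≤ s ∧ s ≤ k ∧ (l : ℝ) ≤ t ∧ Path ω (dn c) c s c t

/-- the window `(k, k + 1)` is crossed: an infection path inside the sites `≥ c` from `c` to `c` starts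
before it and ends after it -/
def Crossed (ω : Config) (c : ℤ) (k : ℕ) : Prop :=
  ∃ s t : ℝ, 0 ≤ s ∧ s ≤ k ∧ (k : ℝ) + 1 ≤ t ∧ Path ω (up c) c s c t

/-- the window `(k, k + 1)` is crossed from the left: an infection path inside the sites `≤ c` from `c`
to `c` starts before it and ends after it -/
def CrossedL (ω : Config) (c : ℤ) (k : ℕ) : Prop :=
  ∃ s t : ℝ, 0 ≤ s ∧ s ≤ k ∧ (k : ℝ) + 1 ≤ t ∧ Path ω (dn c) c s c t

/-- in the window `k` the sites of `[a, c)` recover, and there are no arrows from these sites or from `c` to the left -/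
def Iso (ω : Config) (a c : ℤ) (k : ℕ) : Prop :=
  (∀ x, a ≤ x → x < c → (ω ((Kind.right, x), k)).1 = 0 ∧ (ω ((Kind.left, x), k)).1 = 0 ∧
    0 < (ω ((Kind.recover, x), k)).1 ∧ 0 < (ω ((Kind.recover, x), k)).2 0 ∧
    (ω ((Kind.recover, x), k)).2 0 < 1) ∧ (ω ((Kind.left, c), k)).1 = 0

instance : IsProbabilityMeasure unif := by
  constructor
  simp [unif]

instance (r : ℝ≥0) : IsProbabilityMeasure (cellLaw r) := by
  unfold cellLaw
  infer_instance

instance (ρ : MT → ℝ≥0) : IsProbabilityMeasure (law ρ) := by
  unfold law
  infer_instance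

end P50fc31
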