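import Pool.Agent.Lib.P50fc31.Inf

/-!
# Isolation of the core in a window that is not crossed
-/

set_option autoImplicit false

open MeasureTheory ProbabilityTheory Set
open scoped NNReal ENNReal

namespace P50fc31

variable {ω : Config} {a c : ℤ} {k : ℕ}

/-- a mark in the closed window `k` belongs to the window `k` -/
theorem mark_window {m : MT} {u : ℝ} (hu : u ∈ marks ω m) (h1 : (k : ℝ) ≤ u)
    (h2 : u ≤ (k : ℝ) + 1) : 0 < (ω (m, k)).1 := by
  have h3 : u ≠ ((k + 1 : ℕ) : ℝ) := marks_ne_nat hu (k + 1)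
  obtain ⟨k', n, h4, h5, h6, rfl⟩ := hu
  have h7 : (k' : ℝ) < k + 1 := by linarith
  have h8 : (k : ℝ) < k' + 1 := by linarith
  have h9 : k' < k + 1 := by exact_mod_cast h7
  have h10 : k < k' + 1 := by exact_mod_cast h8
  have h11 : k' = k := by omega
  subst h11
  omega

/-- in a window without arrows from `c` to the left, a path does not leave the sites `≥ c` -/
theorem path_window {S : Set ℤ} (hc : (ω ((Kind.left, c), k)).1 = 0) {x y : ℤ} {s t : ℝ}
    (h : Path ω S x s y t) (hs : (k : ℝ) ≤ s) (ht : t ≤ (k : ℝ) + 1) (hx : c ≤ x) :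
    Path ω (up c) x s y t := by
  induction h with
  | stay _ h2 h3 => exact Path.stay (mem_up.2 hx) h2 h3
  | right _ h2 h3 h4 h5 ih =>
    exact Path.right (mem_up.2 hx) h2 h3 h4 (ih (hs.trans h2) ht (by omega))
  | @left x s u y t _ h2 h3 h4 h5 ih =>
    rcases hx.eq_or_lt with h6 | h6
    · subst h6
      have := mark_window h4 (hs.trans h2) (h5.le.trans ht)
      omega
    · exact Path.left (mem_up.2 hx) h2 h3 h4 (ih (hs.trans h2) ht (by omega))

/-- the path is outside of the core during the window -/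
theorem Iso.not_core (hI : Iso ω a c k) {S : Set ℤ} {z₀ z₁ : ℤ}
    (h : Path ω S z₀ k z₁ ((k : ℝ) + 1)) (ha : a ≤ z₀) : c ≤ z₀ := by
  by_contra hcon
  push Not at hcon
  obtain ⟨h1, h2, h3, h4, h5⟩ := hI.1 z₀ ha hcon
  cases h with
  | stay _ _ k3 =>
    have h6 : (k : ℝ) + (ω ((Kind.recover, z₀), k)).2 0 ∈ marks ω (Kind.recover, z₀) :=
      ⟨k, 0, h3, h4, h5, rfl⟩
    have := k3 _ h6 (by linarith)
    linarith
  | right _ k2 k3 k4 k5 =>
    have := mark_window k4 k2 k5.le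
    omega
  | left _ k2 k3 k4 k5 =>
    have := mark_window k4 k2 k5.le
    omega

/-- last entrance -/
theorem Path.last_entrance {S : Set ℤ} {x y : ℤ} {s t : ℝ} (h : Path ω S x s y t)
    (hy : c ≤ y) : Path ω (up c) x s y t ∨ ∃ s', s ≤ s' ∧ Path ω (up c) c s' y t := by
  induction h with
  | stay _ h2 h3 => exact Or.inl (Path.stay (mem_up.2 hy) h2 h3)
  | @right x s u y t _ h2 h3 h4 h5 ih =>
    rcases ih hy with h6 | ⟨s', h6, h7⟩
    · rcases le_or_gt c x with hx | hx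
      · exact Or.inl (Path.right (mem_up.2 hx) h2 h3 h4 h6)
      · have h7 := mem_up.1 h6.mem_left
        have h8 : x + 1 = c := by omega
        rw [h8] at h6
        exact Or.inr ⟨u, h2, h6⟩
    · exact Or.inr ⟨s', h2.trans h6, h7⟩
  | @left x s u y t _ h2 h3 h4 h5 ih =>
    rcases ih hy with h6 | ⟨s', h6, h7⟩
    · have h7 := mem_up.1 h6.mem_left
      exact Or.inl (Path.left (mem_up.2 (by omega)) h2 h3 h4 h6)
    · exact Or.inr ⟨s', h2.trans h6, h7⟩

/-- first exit -/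
theorem Path.first_exit {S : Set ℤ} {x y : ℤ} {s t : ℝ} (h : Path ω S x s y t)
    (hx : c ≤ x) : Path ω (up c) x s y t ∨ ∃ s', s ≤ s' ∧ Path ω (up c) x s c s' := by
  induction h with
  | stay _ h2 h3 => exact Or.inl (Path.stay (mem_up.2 hx) h2 h3)
  | @right x s u y t _ h2 h3 h4 h5 ih =>
    rcases ih (by omega) with h6 | ⟨s', h6, h7⟩
    · exact Or.inl (Path.right (mem_up.2 hx) h2 h3 h4 h6)
    · exact Or.inr ⟨s', h2.trans h6, Path.right (mem_up.2 hx) h2 h3 h4 h7⟩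
  | @left x s u y t _ h2 h3 h4 h5 ih =>
    rcases hx.eq_or_lt with h6 | h6
    · subst h6
      exact Or.inr ⟨s, le_rfl, Path.refl (mem_up.2 le_rfl) s⟩
    · rcases ih (by omega) with h6 | ⟨s', h6, h7⟩
      · exact Or.inl (Path.left (mem_up.2 hx) h2 h3 h4 h6)
      · exact Or.inr ⟨s', h2.trans h6, Path.left (mem_up.2 hx) h2 h3 h4 h7⟩

/-- a path over a window that is not crossed, and which is at `z₀ ≥ c` at the time `k` and stays at the
sites `≥ c` during the window -/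
theorem path_over (hC : ¬ Crossed ω c k) {S : Set ℤ} {x z₀ z₁ y : ℤ} {s t : ℝ}
    (hs : 0 ≤ s) (h1 : Path ω S x s z₀ k) (h2 : Path ω (up c) z₀ k z₁ ((k : ℝ) + 1))
    (h3 : Path ω S z₁ ((k : ℝ) + 1) y t) :
    Path ω (up c) x s z₁ ((k : ℝ) + 1) ∨ Path ω (up c) z₁ ((k : ℝ) + 1) y t := by
  rcases h1.last_entrance (mem_up.1 h2.mem_left) with h4 | ⟨s', h4, h5⟩
  · exact Or.inl (h4.trans h2)
  · rcases h3.first_exit (mem_up.1 h2.mem_right) with h6 | ⟨s'', h6, h7⟩
    · exact Or.inr h6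
    · exact absurd ⟨s', s'', hs.trans h4, h5.le, h6, (h5.trans h2).trans h7⟩ hC

/-- the process inside the sites `≥ a` dies out -/
theorem not_surv_half (hF : FinReach ω) (hS : ∀ (x : ℤ) (K : ℕ), ¬ Surv ω (up c) x K)
    (hG : ∀ K, ∃ k, K ≤ k ∧ ¬ Crossed ω c k ∧ Iso ω a c k) (x : ℤ) (K : ℕ) :
    ¬ Surv ω (up a) x K := by
  intro hsurv
  have h1 := hS x K
  unfold Surv at h1
  push Not at h1
  obtain ⟨n₀, hn₀, h2⟩ := h1
  have hn₀' : K ≤ n₀ := by exact_mod_cast hn₀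
  obtain ⟨k, hk, hC, hI⟩ := hG n₀
  obtain ⟨N, hN⟩ := hF x.natAbs (k + 1)
  have hR : ({z : ℤ | |z| ≤ N}).Finite := by
    refine (Set.finite_Icc (-(N : ℤ)) N).subset ?_
    intro z hz
    exact abs_le.1 hz
  have hKk : (K : ℝ) ≤ k := by exact_mod_cast hn₀'.trans hk
  obtain ⟨z, -, hz⟩ := exists_surv (ω := ω) (S := up c) (K := k + 1) hR (fun n hn => by
    have hn' : (k : ℝ) + 1 ≤ n := by exact_mod_cast hn
    obtain ⟨y, hy⟩ := hsurv n (hKk.trans (by linarith))
    obtain ⟨z₀, k1, k2⟩ := hy.cut hKk (by linarith)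
    obtain ⟨z₁, k3, k4⟩ := k2.cut (c := (k : ℝ) + 1) (by linarith) hn'
    have k5 := path_window hI.2 k3 le_rfl le_rfl (hI.not_core k3 (mem_up.1 k3.mem_left))
    rcases path_over hC (Nat.cast_nonneg K) k1 k5 k4 with h6 | h6
    · obtain ⟨w, hw, -⟩ := h6.cut (c := (n₀ : ℝ)) hn₀ (by
        have : (n₀ : ℝ) ≤ k := by exact_mod_cast hk
        linarith)
      exact absurd hw (h2 w)
    · refine ⟨z₁, hN x z₁ K ((k : ℝ) + 1) ?_ ?_ ((k1.trans k3).mono (subset_univ _)), y, ?_⟩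
      · rw [Int.abs_eq_natAbs]
      · push_cast
        exact le_rfl
      · push_cast
        exact h6)
  exact hS z (k + 1) hz

/-- after a time from which on no infection uses the arrows from `c` to the left, a path from a site `≥ c`
stays at the sites `≥ c` -/
theorem stay_up {A : Set ℤ} {K : ℝ}
    (hA : ∀ u, K ≤ u → ∀ x ∈ A, Path ω univ x 0 c u → u ∉ marks ω (Kind.left, c)) {z y : ℤ}
    {s t : ℝ} (h : Path ω univ z s y t) (hs : K ≤ s) {x : ℤ} (hx : x ∈ A)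
    (hxz : Path ω univ x 0 z s) (hz : c ≤ z) : Path ω (up c) z s y t := by
  induction h with
  | stay _ h2 h3 => exact Path.stay (mem_up.2 hz) h2 h3
  | @right z s u y t _ h2 h3 h4 h5 ih =>
    refine Path.right (mem_up.2 hz) h2 h3 h4 (ih (hs.trans h2) ?_ (by omega))
    exact hxz.trans (Path.right (mem_univ _) h2 h3 h4 (Path.refl (mem_univ _) u))
  | @left z s u y t _ h2 h3 h4 h5 ih =>
    rcases hz.eq_or_lt with h6 | h6
    · subst h6
      exact absurd h4 (hA u (hs.trans h2) x hx (hxz.trans (Path.stay (mem_univ _) h2 h3)))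
    · refine Path.left (mem_up.2 hz) h2 h3 h4 (ih (hs.trans h2) ?_ (by omega))
      exact hxz.trans (Path.left (mem_univ _) h2 h3 h4 (Path.refl (mem_univ _) u))

theorem stay_or {A : Set ℤ} {K : ℝ}
    (hA : ∀ u, K ≤ u → ∀ x ∈ A, Path ω univ x 0 c u → u ∉ marks ω (Kind.left, c)) {z y : ℤ}
    {s t : ℝ} (h : Path ω univ z s y t) (hs : K ≤ s) {x : ℤ} (hx : x ∈ A)
    (hxz : Path ω univ x 0 z s) (hz : z < c) : Path ω (dn (c - 1)) z s y t ∨ c ≤ y := by
  induction h with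
  | stay _ h2 h3 => exact Or.inl (Path.stay (mem_dn.2 (by omega)) h2 h3)
  | @right z s u y t _ h2 h3 h4 h5 ih =>
    have h7 : Path ω univ x 0 (z + 1) u :=
      hxz.trans (Path.right (mem_univ _) h2 h3 h4 (Path.refl (mem_univ _) u))
    rcases lt_or_ge (z + 1) c with h6 | h6
    · rcases ih (hs.trans h2) h7 h6 with h8 | h8
      · exact Or.inl (Path.right (mem_dn.2 (by omega)) h2 h3 h4 h8)
      · exact Or.inr h8
    · exact Or.inr (mem_up.1 (stay_up hA h5 (hs.trans h2) hx h7 h6).mem_right)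
  | @left z s u y t _ h2 h3 h4 h5 ih =>
    have h7 : Path ω univ x 0 (z - 1) u :=
      hxz.trans (Path.left (mem_univ _) h2 h3 h4 (Path.refl (mem_univ _) u))
    rcases ih (hs.trans h2) h7 (by omega) with h8 | h8
    · exact Or.inl (Path.left (mem_dn.2 (by omega)) h2 h3 h4 h8)
    · exact Or.inr h8

/-- the infection arrives from the right at arbitrarily large times -/
theorem infinitely_often (hF : FinReach ω) (hS : ∀ (x : ℤ) (K : ℕ), ¬ Surv ω (up c) x K)
    (hS' : ∀ (x : ℤ) (K : ℕ), ¬ Surv ω (dn (c - 1)) x K) {A : Set ℤ} (hA : A.Finite)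
    (hsurv : ∀ t : ℝ, 0 ≤ t → (infected ω univ A t).Nonempty) (T : ℝ) :
    ∃ t, T ≤ t ∧ c ∈ infected ω univ A t ∧ t ∈ marks ω (Kind.left, c) := by
  by_contra hcon
  push Not at hcon
  obtain ⟨K, hK⟩ := exists_nat_ge T
  have hact : ∀ u, (K : ℝ) ≤ u → ∀ x ∈ A, Path ω univ x 0 c u → u ∉ marks ω (Kind.left, c) :=
    fun u hu x hx h => hcon u (hK.trans hu) ⟨x, hx, h⟩
  obtain ⟨M, hM⟩ : ∃ M : ℕ, ∀ x ∈ A, |x| ≤ M := by
    obtain ⟨b, hb⟩ := (hA.image fun x : ℤ => |x|).bddAbove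
    exact ⟨b.natAbs, fun x hx => (hb ⟨x, hx, rfl⟩).trans (by omega)⟩
  have hfin : ∀ N : ℕ, ({z : ℤ | |z| ≤ N}).Finite := by
    intro N
    refine (Set.finite_Icc (-(N : ℤ)) N).subset ?_
    intro z hz
    exact abs_le.1 hz
  -- the part on the left dies out
  obtain ⟨N, hN⟩ := hF M K
  obtain ⟨n₁, hn₁, h1⟩ : ∃ n₁ : ℕ, K ≤ n₁ ∧ ∀ z ∈ {z : ℤ | |z| ≤ N}, ∀ y,
      ¬ Path ω (dn (c - 1)) z K y n₁ := by
    by_contra hcon2
    push Not at hcon2
    obtain ⟨z, -, hz⟩ := exists_surv (hfin N) hcon2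
    exact hS' z K hz
  have hn₁' : (K : ℝ) ≤ n₁ := by exact_mod_cast hn₁
  obtain ⟨N', hN'⟩ := hF M n₁
  obtain ⟨w, -, hw⟩ := exists_surv (ω := ω) (S := up c) (K := n₁) (hfin N') (fun n hn => by
    have hn' : (n₁ : ℝ) ≤ n := by exact_mod_cast hn
    obtain ⟨y, x, hx, hy⟩ := hsurv n (Nat.cast_nonneg n)
    obtain ⟨w, k1, k2⟩ := hy.cut (Nat.cast_nonneg n₁) hn'
    obtain ⟨z, k3, k4⟩ := k1.cut (Nat.cast_nonneg K) hn₁'
    have hcw : c ≤ w := by
      rcases lt_or_ge z c with hz | hz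
      · rcases stay_or hact k4 le_rfl hx k3 hz with h2 | h2
        · exact absurd h2 (h1 z (hN x z 0 K (hM x hx) le_rfl k3) w)
        · exact h2
      · exact mem_up.1 (stay_up hact k4 le_rfl hx k3 hz).mem_right
    exact ⟨w, hN' x w 0 n₁ (hM x hx) le_rfl k1, y, stay_up hact k2 hn₁' hx k1 hcw⟩)
  exact hS w n₁ hw

end P50fc31
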