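import Pool.Agent.Lib.P50fc31.Two

/-!
# Long time intervals that are crossed neither from the right nor from the left
-/

set_option autoImplicit false

open MeasureTheory ProbabilityTheory Set
open scoped NNReal ENNReal

namespace P50fc31

/-- all windows of the interval `[k, k + L]` are crossed from the right, or all are crossed from the left -/
def UL (c : ℤ) (L k : ℕ) : Set Config :=
  {ω | (∀ j, k ≤ j → j < k + L → Crossed ω c j) ∨
    (∀ j, k ≤ j → j < k + L → Crossed (flip ω) c j)}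

/-- the core is isolated in all windows of the interval `[k, k + L]` on both sides -/
def VL (a c : ℤ) (L k : ℕ) : Set Config := {ω | ∀ j, k ≤ j → j < k + L → ω ∈ V2 a c j}

/-- the coordinates of the isolation event -/
noncomputable def DL (a c : ℤ) (L k : ℕ) : Set (MT × ℕ) :=
  {i | k ≤ i.2 ∧ i.2 < k + L ∧ (i.1 ∈ Bt a c ∨ flipM i.1 ∈ Bt a c)}

theorem measurableSet_UL (c : ℤ) (L k : ℕ) : MeasurableSet (UL c L k) := by
  have h1 : ∀ j, Measurable fun ω : Config => Crossed ω c j := fun j =>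
    measurableSet_setOfPred.1 (measurableSet_crossed c j)
  have h2 : ∀ j, Measurable fun ω : Config => Crossed (flip ω) c j := fun j =>
    measurableSet_setOfPred.1 (measurable_flip (measurableSet_crossed c j))
  unfold UL
  rw [measurableSet_setOfPred]
  exact Measurable.or
    (Measurable.forall fun j => Measurable.imp measurable_const
      (Measurable.imp measurable_const (h1 j)))
    (Measurable.forall fun j => Measurable.imp measurable_const
      (Measurable.imp measurable_const (h2 j)))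

theorem measurableSet_VL (a c : ℤ) (L k : ℕ) : MeasurableSet (VL a c L k) := by
  unfold VL
  rw [measurableSet_setOfPred]
  exact Measurable.forall fun j => Measurable.imp measurable_const
      (Measurable.imp measurable_const (measurableSet_setOfPred.1 (measurableSet_V2 a c j)))

theorem keep_UL (c : ℤ) (L k : ℕ) (ω : Config) :
    keep (Jc c ∪ flipI ⁻¹' Jc c) ω ∈ UL c L k ↔ ω ∈ UL c L k := by
  have h1 : ∀ j, Crossed (keep (Jc c ∪ flipI ⁻¹' Jc c) ω) c j ↔ Crossed ω c j := fun j =>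
    keep_mono (J' := Jc c ∪ flipI ⁻¹' Jc c) Set.subset_union_left
      (E := {ω | Crossed ω c j}) (fun ω => crossed_keep) ω
  have h2 : ∀ j, Crossed (flip (keep (Jc c ∪ flipI ⁻¹' Jc c) ω)) c j ↔ Crossed (flip ω) c j :=
    fun j => keep_mono (J' := Jc c ∪ flipI ⁻¹' Jc c) Set.subset_union_right
      (E := flip ⁻¹' {ω | Crossed ω c j}) (keep_flip fun ω => crossed_keep) ω
  simp only [UL, Set.mem_ofPred_eq, h1, h2]

theorem keep_VL (a c : ℤ) (L k : ℕ) (ω : Config) :
    keep (DL a c L k) ω ∈ VL a c L k ↔ ω ∈ VL a c L k := by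
  refine forall_congr' fun j => imp_congr_right fun h1 => imp_congr_right fun h2 => ?_
  refine keep_mono ?_ (keep_V2 a c j) ω
  rintro i (⟨h3, h4⟩ | ⟨h3, h4⟩)
  · subst h4
    exact ⟨h1, h2, Or.inl h3⟩
  · simp only [flipI] at h3 h4
    subst h4
    exact ⟨h1, h2, Or.inr h3⟩

theorem exists_VL_pos {ρ : MT → ℝ≥0} {a c : ℤ} (L : ℕ) (hr : ∀ x, 0 < ρ (Kind.recover, x)) :
    ∃ q : ℝ≥0∞, 0 < q ∧ ∀ k, law ρ (VL a c L k) = q := by
  classical
  set B := Bt a c ∪ (Bt a c).image flipM with hB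
  refine ⟨∏ m ∈ B, (cellLaw (ρ m) (Bs m)) ^ L, ?_, fun k => ?_⟩
  · rw [pos_iff_ne_zero, Finset.prod_ne_zero_iff]
    rintro ⟨κ, x⟩ -
    refine pow_ne_zero _ ?_
    cases κ
    · simp only [Bs, if_true]
      exact (cell_pos (hr x)).ne'
    · simp only [Bs, reduceCtorEq, if_false]
      rw [cell_zero]
      simp only [ne_eq, ENNReal.ofReal_eq_zero, not_le]
      positivity
    · simp only [Bs, reduceCtorEq, if_false]
      rw [cell_zero]
      simp only [ne_eq, ENNReal.ofReal_eq_zero, not_le]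
      positivity
  · have h1 : VL a c L k = {ω | ∀ i ∈ B ×ˢ Finset.Ico k (k + L), ω i ∈ Bs i.1} := by
      ext ω
      constructor
      · rintro h ⟨m, j⟩ hi
        obtain ⟨hm, hj⟩ := Finset.mem_product.1 hi
        obtain ⟨hj1, hj2⟩ := Finset.mem_Ico.1 hj
        obtain ⟨h2, h3⟩ := h j hj1 hj2
        rcases Finset.mem_union.1 hm with h4 | h4
        · exact iso_iff.1 h2 m h4
        · obtain ⟨m', h5, h6⟩ := Finset.mem_image.1 h4
          have h7 := iso_iff.1 h3 m' h5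
          simp only at h6
          rw [← h6]
          simp only
          rw [Bs_flipM]
          exact h7
      · intro h j hj1 hj2
        refine ⟨iso_iff.2 fun m hm => h (m, j) (Finset.mem_product.2
          ⟨Finset.mem_union_left _ hm, Finset.mem_Ico.2 ⟨hj1, hj2⟩⟩), ?_⟩
        refine iso_iff.2 fun m hm => ?_
        have h2 := h (flipM m, j) (Finset.mem_product.2
          ⟨Finset.mem_union_right _ (Finset.mem_image_of_mem _ hm), Finset.mem_Ico.2 ⟨hj1, hj2⟩⟩)
        simp only at h2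
        rw [Bs_flipM] at h2
        exact h2
    rw [h1, law_box ρ _ (t := fun i => Bs i.1) (fun i _ => measurableSet_Bs i.1),
      Finset.prod_product]
    refine Finset.prod_congr rfl fun m _ => ?_
    simp only [Finset.prod_const, Nat.card_Ico, add_tsub_cancel_left]

theorem disj_JL {M : ℤ} (hM : 0 ≤ M) (L k : ℕ) : Disjoint (Jc (M + 1) ∪ flipI ⁻¹' Jc (M + 1))
    (DL (-M) (M + 1) L k) := by
  rw [Set.disjoint_left]
  rintro ⟨⟨κ, x⟩, j⟩ h1 ⟨-, -, h2⟩
  refine Set.disjoint_left.1 (disj_J2 hM j) h1 ?_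
  rcases h2 with h2 | h2
  · exact Or.inl ⟨h2, rfl⟩
  · exact Or.inr ⟨h2, rfl⟩

theorem ae_good_gap {ρ : MT → ℝ≥0} {M : ℤ} (hM : 0 ≤ M) (hr : ∀ x, 0 < ρ (Kind.recover, x))
    {L : ℕ} (hL : 0 < L) :
    ∀ᵐ ω ∂(law ρ), (∀ K, ∃ k, K ≤ k ∧ ω ∉ UL (M + 1) L k) →
      ∀ K, ∃ k, K ≤ k ∧ ω ∉ UL (M + 1) L k ∧ ω ∈ VL (-M) (M + 1) L k := by
  obtain ⟨q, hq, hq'⟩ := exists_VL_pos (ρ := ρ) (a := -M) (c := M + 1) L hr
  have h1 : ∀ r : ℕ, ∀ᵐ ω ∂(law ρ), (∀ K, ∃ i, K ≤ i ∧ ω ∉ UL (M + 1) L (r + L * i)) →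
      ∀ K, ∃ i, K ≤ i ∧ ω ∉ UL (M + 1) L (r + L * i) ∧ ω ∈ VL (-M) (M + 1) L (r + L * i) := by
    intro r
    refine ae_good ρ (J := Jc (M + 1) ∪ flipI ⁻¹' Jc (M + 1))
      (D := fun i => DL (-M) (M + 1) L (r + L * i))
      (U := fun i => UL (M + 1) L (r + L * i)) (V := fun i => VL (-M) (M + 1) L (r + L * i))
      (fun i => measurableSet_UL (M + 1) L _) (fun i => measurableSet_VL (-M) (M + 1) L _)
      (fun i => keep_UL (M + 1) L _) (fun i => keep_VL (-M) (M + 1) L _) ?_ ?_ hq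
      fun i => (hq' _).ge
    · rw [Set.disjoint_iUnion_right]
      exact fun i => disj_JL hM L _
    · intro m n hmn
      rw [Set.disjoint_left]
      rintro i ⟨h1, h2, -⟩ ⟨h3, h4, -⟩
      rcases lt_or_gt_of_ne hmn with h5 | h5
      · have h6 : L * (m + 1) ≤ L * n := Nat.mul_le_mul_left L h5
        rw [mul_add, mul_one] at h6
        omega
      · have h6 : L * (n + 1) ≤ L * m := Nat.mul_le_mul_left L h5
        rw [mul_add, mul_one] at h6
        omega
  rw [← ae_all_iff] at h1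
  filter_upwards [h1] with ω h2 h3
  obtain ⟨r, hr⟩ : ∃ r, ∀ K, ∃ i, K ≤ i ∧ ω ∉ UL (M + 1) L (r + L * i) := by
    by_contra hcon
    push Not at hcon
    choose f hf using hcon
    obtain ⟨k, hk, hk'⟩ := h3 (L * (∑ r ∈ Finset.range L, f r) + L)
    have h4 : k % L < L := Nat.mod_lt k hL
    have h5 : f (k % L) ≤ k / L := by
      rw [Nat.le_div_iff_mul_le hL]
      have h6 : f (k % L) ≤ ∑ r ∈ Finset.range L, f r :=
        Finset.single_le_sum (f := f) (fun _ _ => Nat.zero_le _) (Finset.mem_range.2 h4)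
      calc f (k % L) * L = L * f (k % L) := mul_comm _ _
        _ ≤ L * ∑ r ∈ Finset.range L, f r := Nat.mul_le_mul_left L h6
        _ ≤ k := by omega
    have h6 := hf (k % L) (k / L) h5
    rw [Nat.mod_add_div] at h6
    exact hk' h6
  intro K
  obtain ⟨i, hi, h4, h5⟩ := h2 r hr K
  refine ⟨r + L * i, ?_, h4, h5⟩
  calc K ≤ i := hi
    _ ≤ L * i := Nat.le_mul_of_pos_left i hL
    _ ≤ r + L * i := Nat.le_add_left _ _

variable {ω : Config} {c : ℤ}

/-- in windows without arrows from `c` to the left, a path does not leave the sites `≥ c` -/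
theorem path_windows {S : Set ℤ} {k L : ℕ}
    (hc : ∀ j, k ≤ j → j < k + L → (ω ((Kind.left, c), j)).1 = 0) {x y : ℤ} {s t : ℝ}
    (h : Path ω S x s y t) (hs : (k : ℝ) ≤ s) (ht : t ≤ ((k + L : ℕ) : ℝ)) (hx : c ≤ x) :
    Path ω (up c) x s y t := by
  have key : ∀ {u : ℝ} {m : MT}, u ∈ marks ω m → (k : ℝ) ≤ u → u ≤ ((k + L : ℕ) : ℝ) →
      ∃ j, k ≤ j ∧ j < k + L ∧ 0 < (ω (m, j)).1 := by
    rintro u m ⟨j, n, h1, h2, h3, rfl⟩ hu hu'
    have h4 : (k : ℝ) < j + 1 := by linarith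
    have h5 : (j : ℝ) < ((k + L : ℕ) : ℝ) := by linarith
    have h6 : k < j + 1 := by exact_mod_cast h4
    have h7 : j < k + L := by exact_mod_cast h5
    exact ⟨j, by omega, h7, by omega⟩
  induction h with
  | stay _ h2 h3 => exact Path.stay (mem_up.2 hx) h2 h3
  | right _ h2 h3 h4 h5 ih =>
    exact Path.right (mem_up.2 hx) h2 h3 h4 (ih (hs.trans h2) ht (by omega))
  | @left x s u y t _ h2 h3 h4 h5 ih =>
    rcases hx.eq_or_lt with h6 | h6
    · subst h6
      obtain ⟨j, hj1, hj2, hj3⟩ := key h4 (hs.trans h2) (h5.le.trans ht)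
      have := hc j hj1 hj2
      omega
    · exact Path.left (mem_up.2 hx) h2 h3 h4 (ih (hs.trans h2) ht (by omega))

/-- one step of the König argument over an interval -/
theorem over_windows {a : ℤ} {k L : ℕ} (_ : 0 < L)
    (hC : ∃ j, k ≤ j ∧ j < k + L ∧ ¬ Crossed ω c j)
    (hI : ∀ j, k ≤ j → j < k + L → Iso ω a c j) {S : Set ℤ}
    {x z₀ z₁ y : ℤ} {t : ℝ} (h1 : Path ω S x 0 z₀ k)
    (h2 : Path ω S z₀ k z₁ ((k + L : ℕ) : ℝ))
    (h3 : Path ω S z₁ ((k + L : ℕ) : ℝ) y t) (ha : a ≤ z₀) :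
    (∃ w, Path ω (up c) x 0 w k) ∨ Path ω (up c) z₁ ((k + L : ℕ) : ℝ) y t := by
  obtain ⟨j, hj1, hj2, hj3⟩ := hC
  have hk1 : (k : ℝ) + 1 ≤ ((k + L : ℕ) : ℝ) := by exact_mod_cast (by omega : k + 1 ≤ k + L)
  have hjk : (k : ℝ) ≤ j := by exact_mod_cast hj1
  have hjL : (j : ℝ) + 1 ≤ ((k + L : ℕ) : ℝ) := by exact_mod_cast hj2
  obtain ⟨w₀, m1, -⟩ := h2.cut (c := (k : ℝ) + 1) (by linarith) hk1
  have hz₀ : c ≤ z₀ := (hI k le_rfl (by omega)).not_core m1 ha
  have h2' : Path ω (up c) z₀ k z₁ ((k + L : ℕ) : ℝ) :=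
    path_windows (fun j hj hj' => (hI j hj hj').2) h2 le_rfl le_rfl hz₀
  obtain ⟨z₂, m2, m3⟩ := h2'.cut hjk (by linarith)
  obtain ⟨z₃, m4, m5⟩ := m3.cut (c := (j : ℝ) + 1) (by linarith) hjL
  rcases path_over (S := univ) hj3 le_rfl ((h1.mono (subset_univ _)).trans
    (m2.mono (subset_univ _))) m4 ((m5.mono (subset_univ _)).trans (h3.mono (subset_univ _)))
    with h6 | h6
  · obtain ⟨w, hw, -⟩ := h6.cut (c := (k : ℝ)) (Nat.cast_nonneg k) (by linarith)
    exact Or.inl ⟨w, hw⟩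
  · have h7 := (h3.mono (subset_univ _)).first_exit (c := c) (mem_up.1 h2'.mem_right)
    rcases h7 with h8 | ⟨s', h8, h9⟩
    · exact Or.inr h8
    · -- the path over the window `j` starts at `c` or stays at the sites `≥ c` from the beginning
      rcases ((h1.mono (subset_univ _)).trans (m2.mono (subset_univ _))).last_entrance (c := c)
        (mem_up.1 m4.mem_left) with h10 | ⟨s, h10, h11⟩
      · obtain ⟨w, hw, -⟩ := h10.cut (c := (k : ℝ)) (Nat.cast_nonneg k) hjk
        exact Or.inl ⟨w, hw⟩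
      · exact absurd ⟨s, s', h10, h11.le, by linarith,
          h11.trans (m4.trans (m5.trans h9))⟩ hj3

end P50fc31
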