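import Pool.Agent.Lib.P50fc31.Two

/-!
# The almost sure statements
-/

set_option autoImplicit false

open MeasureTheory ProbabilityTheory Set
open scoped NNReal ENNReal

namespace P50fc31

variable {ω : Config}

theorem nset_dn (a : ℤ) : nset (dn a) = up (-a) := by
  ext x
  show -x ≤ a ↔ -a ≤ x
  omega

theorem nset_up (a : ℤ) : nset (up a) = dn (-a) := by
  ext x
  show a ≤ -x ↔ x ≤ -a
  omega

theorem nset_univ : nset univ = univ := rfl

theorem nset_finite {A : Set ℤ} (hA : A.Finite) : (nset A).Finite :=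
  hA.preimage (neg_injective.injOn)

theorem infected_flip {S A : Set ℤ} {y : ℤ} {t : ℝ} (h : y ∈ infected ω S A t) :
    -y ∈ infected (flip ω) (nset S) (nset A) t := by
  obtain ⟨x, hx, h1⟩ := h
  exact ⟨-x, show -(-x) ∈ A by rwa [neg_neg], h1.flip⟩

theorem infected_flip' {S A : Set ℤ} {y : ℤ} {t : ℝ}
    (h : y ∈ infected (flip ω) (nset S) (nset A) t) : -y ∈ infected ω S A t := by
  have h1 := infected_flip h
  rw [flip_flip] at h1
  have e1 : nset (nset S) = S := by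
    ext x
    show -(-x) ∈ S ↔ x ∈ S
    rw [neg_neg]
  have e2 : nset (nset A) = A := by
    ext x
    show -(-x) ∈ A ↔ x ∈ A
    rw [neg_neg]
  rwa [e1, e2] at h1

theorem surv_dn {a x : ℤ} {s : ℝ} (h : Surv ω (dn a) x s) : Surv (flip ω) (up (-a)) (-x) s := by
  intro n hn
  obtain ⟨y, hy⟩ := h n hn
  have h1 := hy.flip
  rw [nset_dn] at h1
  exact ⟨-y, h1⟩

theorem not_surv_dn (h : ∀ (a x : ℤ) (K : ℕ), ¬ Surv (flip ω) (up a) x K) (a x : ℤ) (K : ℕ) :
    ¬ Surv ω (dn a) x K := fun h1 => h _ _ K (surv_dn h1)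

theorem FinReach.flip (hF : FinReach ω) : FinReach (flip ω) := by
  intro M K
  obtain ⟨N, hN⟩ := hF M K
  refine ⟨N, fun x y s t hx ht h => ?_⟩
  have h1 := h.flip
  rw [flip_flip, nset_univ] at h1
  have := hN (-x) (-y) s t (by rwa [abs_neg]) ht h1
  rwa [abs_neg] at this

theorem crossedL_of_flip {c : ℤ} {k : ℕ} (h : Crossed (flip ω) c k) : CrossedL ω (-c) k := by
  obtain ⟨s, t, h1, h2, h3, h4⟩ := h
  have h5 := h4.flip
  rw [flip_flip, nset_up] at h5
  exact ⟨s, t, h1, h2, h3, h5⟩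

theorem flip_of_crossedL {c : ℤ} {k : ℕ} (h : CrossedL ω c k) : Crossed (flip ω) (-c) k := by
  obtain ⟨s, t, h1, h2, h3, h4⟩ := h
  have h5 := h4.flip
  rw [nset_dn] at h5
  exact ⟨s, t, h1, h2, h3, h5⟩

/-- extinction from finite sets -/
theorem dies_out {S A : Set ℤ} (hA : A.Finite) (h : ∀ (x : ℤ) (K : ℕ), ¬ Surv ω S x K) :
    ∃ T : ℝ, ∀ t, T ≤ t → infected ω S A t = ∅ := by
  by_contra hcon
  push Not at hcon
  obtain ⟨z, -, hz⟩ := exists_surv (ω := ω) (S := S) (K := 0) hA (fun n _ => by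
    obtain ⟨t, ht, y, x, hx, hy⟩ := hcon n
    obtain ⟨w, hw, -⟩ := hy.cut (c := (n : ℝ)) (Nat.cast_nonneg n) ht
    refine ⟨x, hx, w, ?_⟩
    rwa [Nat.cast_zero])
  exact h z 0 hz

/-- a path that avoids the site `b` and starts on the right of `b` stays on the right of `b` -/
theorem path_right_of {S : Set ℤ} {b x y : ℤ} {s t : ℝ} (hb : b ∉ S) (h : Path ω S x s y t)
    (hx : b < x) : Path ω (up (b + 1)) x s y t := by
  induction h with
  | stay h1 h2 h3 => exact Path.stay (mem_up.2 (by omega)) h2 h3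
  | right h1 h2 h3 h4 h5 ih =>
    exact Path.right (mem_up.2 (by omega)) h2 h3 h4 (ih (by omega))
  | @left x s u y t h1 h2 h3 h4 h5 ih =>
    refine Path.left (mem_up.2 (by omega)) h2 h3 h4 (ih ?_)
    have h6 : x - 1 ≠ b := by
      rintro rfl
      exact hb h5.mem_left
    omega

/-- a path that avoids the site `b` and starts on the left of `b` stays on the left of `b` -/
theorem path_left_of {S : Set ℤ} {b x y : ℤ} {s t : ℝ} (hb : b ∉ S) (h : Path ω S x s y t)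
    (hx : x < b) : Path ω (dn (b - 1)) x s y t := by
  induction h with
  | stay h1 h2 h3 => exact Path.stay (mem_dn.2 (by omega)) h2 h3
  | @right x s u y t h1 h2 h3 h4 h5 ih =>
    refine Path.right (mem_dn.2 (by omega)) h2 h3 h4 (ih ?_)
    have h6 : x + 1 ≠ b := by
      rintro rfl
      exact hb h5.mem_left
    omega
  | left h1 h2 h3 h4 h5 ih =>
    exact Path.left (mem_dn.2 (by omega)) h2 h3 h4 (ih (by omega))

/-- the process inside a proper subset of the sites dies out -/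
theorem eq_univ_of_surv {S A : Set ℤ} (hA : A.Finite)
    (h : ∀ (a x : ℤ) (K : ℕ), ¬ Surv ω (up a) x K) (h' : ∀ (a x : ℤ) (K : ℕ), ¬ Surv ω (dn a) x K)
    (hs : ∀ t : ℝ, 0 ≤ t → (infected ω S A t).Nonempty) : S = univ := by
  by_contra hne
  obtain ⟨b, hb⟩ := (Set.ne_univ_iff_exists_notMem S).1 hne
  obtain ⟨x, -, hx⟩ := exists_surv (ω := ω) (S := S) (K := 0) hA (fun n _ => by
    obtain ⟨y, x, hx, hy⟩ := hs n (Nat.cast_nonneg n)
    refine ⟨x, hx, y, ?_⟩
    rwa [Nat.cast_zero])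
  rcases lt_trichotomy x b with h1 | h1 | h1
  · refine h' (b - 1) x 0 fun n hn => ?_
    obtain ⟨y, hy⟩ := hx n hn
    exact ⟨y, path_left_of hb hy h1⟩
  · obtain ⟨y, hy⟩ := hx 0 le_rfl
    exact hb (h1 ▸ hy.mem_left)
  · refine h (b + 1) x 0 fun n hn => ?_
    obtain ⟨y, hy⟩ := hx n hn
    exact ⟨y, path_right_of hb hy h1⟩

section ae

variable {lam : ℝ≥0} {m : ℕ} {ρ : MT → ℝ≥0}

theorem ae_half (h0 : theta lam = 0) (hρ : ∀ i : MT, (m : ℤ) < |i.2| → ρ i = hom lam i)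
    (hr : ∀ x, 0 < ρ (Kind.recover, x)) :
    ∀ᵐ ω ∂(law ρ), ∀ (a x : ℤ) (K : ℕ), ¬ Surv ω (up a) x K := by
  rw [ae_all_iff]
  intro a
  have h1 : ∀ i : MT, (m : ℤ) + 1 ≤ i.2 → i ≠ (Kind.left, (m : ℤ) + 1) → ρ i = hom lam i :=
    fun i hi _ => hρ i (lt_of_lt_of_le (by omega) (hi.trans (le_abs_self _)))
  filter_upwards [ae_finReach hρ, ae_not_surv_up h0 h1, ae_good_right a ((m : ℤ) + 1) hr]
    with ω hF hS hG x K
  exact not_surv_half hF hS (hG (exists_not_crossed hF hS)) x K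

theorem hom_flipM (lam : ℝ≥0) (i : MT) : hom lam (flipM i) = hom lam i := by
  obtain ⟨κ, x⟩ := i
  cases κ <;> rfl

theorem ae_half_flip (h0 : theta lam = 0) (hρ : ∀ i : MT, (m : ℤ) < |i.2| → ρ i = hom lam i)
    (hr : ∀ x, 0 < ρ (Kind.recover, x)) :
    ∀ᵐ ω ∂(law ρ), ∀ (a x : ℤ) (K : ℕ), ¬ Surv (flip ω) (up a) x K := by
  have h1 : ∀ᵐ ω ∂((law ρ).map flip), ∀ (a x : ℤ) (K : ℕ), ¬ Surv ω (up a) x K := by
    rw [law_map_flip]
    refine ae_half h0 (m := m) (fun i hi => ?_) fun x => hr (-x)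
    rw [hρ (flipM i) (by simpa [flipM] using hi), hom_flipM]
  exact ae_of_ae_map measurable_flip.aemeasurable h1

theorem ae_two (h0 : theta lam = 0) (hρ : ∀ i : MT, (m : ℤ) < |i.2| → ρ i = hom lam i)
    (hr : ∀ x, 0 < ρ (Kind.recover, x)) :
    ∀ᵐ ω ∂(law ρ), ∀ M : ℤ, 0 ≤ M → ∀ A : Set ℤ, A.Finite →
      (∀ t : ℝ, 0 ≤ t → (infected ω univ A t).Nonempty) →
      ∃ K : ℕ, ∀ k, K ≤ k → Crossed ω (M + 1) k ∨ CrossedL ω (-M - 1) k := by
  rw [ae_all_iff]
  intro M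
  by_cases hM : 0 ≤ M
  · filter_upwards [ae_finReach hρ, ae_half h0 hρ hr, ae_half_flip h0 hρ hr,
      ae_good_two (ρ := ρ) hM hr] with ω hF hS hS' hG _ A hA hsurv
    by_contra hcon
    push Not at hcon
    refine not_surv_two hM hF (hS (M + 1)) (hS' (M + 1)) (hG fun K => ?_) hA hsurv
    obtain ⟨k, hk, h1, h2⟩ := hcon K
    refine ⟨k, hk, ?_⟩
    rintro (h3 | h3)
    · exact h1 h3
    · have h4 := crossedL_of_flip h3
      rw [neg_add] at h4
      exact h2 h4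
  · exact Filter.Eventually.of_forall fun ω h => absurd h hM

end ae

end P50fc31
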