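import Pool.Agent.Lib.P50fc31.Gap
import Pool.Agent.Lib.P50fc31.Main

/-!
# On survival all long time intervals are eventually crossed from the right or from the left
-/

set_option autoImplicit false

open MeasureTheory ProbabilityTheory Set
open scoped NNReal ENNReal

namespace P50fc31

variable {ω : Config}

/-- if infinitely often an interval is not crossed and the core is isolated in it then the process dies out -/
theorem not_surv_gap {M : ℤ} (hM : 0 ≤ M) {L : ℕ} (hL : 0 < L) (hF : FinReach ω)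
    (hS : ∀ (x : ℤ) (K : ℕ), ¬ Surv ω (up (M + 1)) x K)
    (hS' : ∀ (x : ℤ) (K : ℕ), ¬ Surv (flip ω) (up (M + 1)) x K)
    (hG : ∀ K, ∃ k, K ≤ k ∧ ω ∉ UL (M + 1) L k ∧ ω ∈ VL (-M) (M + 1) L k) {A : Set ℤ}
    (hA : A.Finite) : ¬ ∀ t : ℝ, 0 ≤ t → (infected ω univ A t).Nonempty := by
  intro hsurv
  have hdie : ∀ (ω' : Config), (∀ (x : ℤ) (K : ℕ), ¬ Surv ω' (up (M + 1)) x K) →
      ∀ (R : Set ℤ), R.Finite → ∀ K : ℕ, ∃ n : ℕ, K ≤ n ∧ ∀ z ∈ R, ∀ y (t : ℝ), (n : ℝ) ≤ t →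
        ¬ Path ω' (up (M + 1)) z K y t := by
    intro ω' h R hR K
    by_contra hcon
    push Not at hcon
    obtain ⟨z, -, hz⟩ := exists_surv (ω := ω') (S := up (M + 1)) (K := K) hR (fun n hn => by
      obtain ⟨z, hz, y, t, ht, hy⟩ := hcon n hn
      obtain ⟨w, hw, -⟩ := hy.cut (c := (n : ℝ)) (by exact_mod_cast hn) ht
      exact ⟨z, hz, w, hw⟩)
    exact h z K hz
  have hnA : ((fun x : ℤ => -x) '' A).Finite := hA.image _
  obtain ⟨n₁, -, h1⟩ := hdie ω hS A hA 0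
  obtain ⟨n₂, -, h2⟩ := hdie (flip ω) hS' _ hnA 0
  obtain ⟨k, hk, hU, hV⟩ := hG (max n₁ n₂)
  have hC1 : ∃ j, k ≤ j ∧ j < k + L ∧ ¬ Crossed ω (M + 1) j := by
    by_contra hcon
    push Not at hcon
    exact hU (Or.inl hcon)
  have hC2 : ∃ j, k ≤ j ∧ j < k + L ∧ ¬ Crossed (flip ω) (M + 1) j := by
    by_contra hcon
    push Not at hcon
    exact hU (Or.inr hcon)
  have hI1 : ∀ j, k ≤ j → j < k + L → Iso ω (-M) (M + 1) j := fun j hj hj' => (hV j hj hj').1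
  have hI2 : ∀ j, k ≤ j → j < k + L → Iso (flip ω) (-M) (M + 1) j :=
    fun j hj hj' => (hV j hj hj').2
  have hk1 : (n₁ : ℝ) ≤ k := by exact_mod_cast (le_max_left _ _).trans hk
  have hk2 : (n₂ : ℝ) ≤ k := by exact_mod_cast (le_max_right _ _).trans hk
  obtain ⟨B, hB⟩ : ∃ B : ℕ, ∀ x ∈ A, |x| ≤ B := by
    obtain ⟨b, hb⟩ := (hA.image fun x : ℤ => |x|).bddAbove
    exact ⟨b.natAbs, fun x hx => (hb ⟨x, hx, rfl⟩).trans (by omega)⟩
  obtain ⟨N, hN⟩ := hF B (k + L)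
  have hR : ({z : ℤ | |z| ≤ N}).Finite := by
    refine (Set.finite_Icc (-(N : ℤ)) N).subset ?_
    intro z hz
    exact abs_le.1 hz
  obtain ⟨n₃, hn₃, h3⟩ := hdie ω hS _ hR (k + L)
  obtain ⟨n₄, hn₄, h4⟩ := hdie (flip ω) hS' _ hR (k + L)
  set n := max n₃ n₄ with hn
  have hn' : ((k + L : ℕ) : ℝ) ≤ n := by exact_mod_cast hn₃.trans (le_max_left _ _)
  have hkL : (k : ℝ) ≤ ((k + L : ℕ) : ℝ) := by exact_mod_cast (by omega : k ≤ k + L)
  obtain ⟨y, x, hx, hy⟩ := hsurv n (Nat.cast_nonneg n)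
  obtain ⟨z₀, k1, k2⟩ := hy.cut (Nat.cast_nonneg k) (by linarith : (k : ℝ) ≤ n)
  obtain ⟨z₁, k3, k4⟩ := k2.cut (c := ((k + L : ℕ) : ℝ)) hkL hn'
  have hz₁ : |z₁| ≤ N := hN x z₁ 0 ((k + L : ℕ) : ℝ) (hB x hx) le_rfl (k1.trans k3)
  rcases le_total (-M) z₀ with hz | hz
  · rcases over_windows hL hC1 hI1 k1 k3 k4 hz with ⟨w, h6⟩ | h6
    · have := h1 x hx w k hk1
      rw [Nat.cast_zero] at this
      exact this h6
    · exact h3 z₁ hz₁ y n (by exact_mod_cast le_max_left _ _) h6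
  · rcases over_windows hL hC2 hI2 k1.flip k3.flip k4.flip (by omega) with ⟨w, h6⟩ | h6
    · have := h2 (-x) ⟨x, hx, rfl⟩ w k hk2
      rw [Nat.cast_zero] at this
      exact this h6
    · exact h4 (-z₁) (show |(-z₁)| ≤ (N : ℤ) by rwa [abs_neg]) (-y) n
        (by exact_mod_cast le_max_right _ _) h6

/-- eventually all intervals of length `L` are crossed from the right or from the left -/
def Cov (c : ℤ) (L : ℕ) : Set Config := {ω | ∃ K, ∀ k, K ≤ k → ω ∈ UL c L k}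

theorem measurableSet_Cov (c : ℤ) (L : ℕ) : MeasurableSet (Cov c L) := by
  unfold Cov
  rw [measurableSet_setOfPred]
  exact Measurable.exists fun K => Measurable.forall fun k => Measurable.imp measurable_const
    (measurableSet_setOfPred.1 (measurableSet_UL c L k))

theorem keep_Cov (c : ℤ) (L : ℕ) (ω : Config) :
    keep (Jc c ∪ flipI ⁻¹' Jc c) ω ∈ Cov c L ↔ ω ∈ Cov c L := by
  simp only [Cov, Set.mem_ofPred_eq, keep_UL]

section ae

variable {lam : ℝ≥0} {m : ℕ} {ρ : MT → ℝ≥0}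

theorem ae_gap (h0 : theta lam = 0) (hρ : ∀ i : MT, (m : ℤ) < |i.2| → ρ i = hom lam i)
    (hr : ∀ x, 0 < ρ (Kind.recover, x)) :
    ∀ᵐ ω ∂(law ρ), ∀ M : ℤ, 0 ≤ M → ∀ L : ℕ, 0 < L → ∀ A : Set ℤ, A.Finite →
      (∀ t : ℝ, 0 ≤ t → (infected ω univ A t).Nonempty) → ω ∈ Cov (M + 1) L := by
  rw [ae_all_iff]
  intro M
  by_cases hM : 0 ≤ M
  · have h1 : ∀ᵐ ω ∂(law ρ), ∀ L : ℕ, 0 < L → ∀ A : Set ℤ, A.Finite →
        (∀ t : ℝ, 0 ≤ t → (infected ω univ A t).Nonempty) → ω ∈ Cov (M + 1) L := by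
      rw [ae_all_iff]
      intro L
      rcases Nat.eq_zero_or_pos L with hL | hL
      · exact Filter.Eventually.of_forall fun ω h => by omega
      · filter_upwards [ae_finReach hρ, ae_half h0 hρ hr, ae_half_flip h0 hρ hr,
          ae_good_gap (ρ := ρ) hM hr hL] with ω hF hS hS' hG _ A hA hsurv
        by_contra hcon
        refine not_surv_gap hM hL hF (hS (M + 1)) (hS' (M + 1)) (hG fun K => ?_) hA hsurv
        have hcon' : ¬ ∃ K, ∀ k, K ≤ k → ω ∈ UL (M + 1) L k := hcon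
        push Not at hcon'
        exact hcon' K
    filter_upwards [h1] with ω h2 _ L hL A hA hsurv
    exact h2 L hL A hA hsurv
  · exact Filter.Eventually.of_forall fun ω h => absurd h hM

end ae

theorem crossR_of {c : ℤ} {k L : ℕ} (hL : 0 < L)
    (h : ∀ j, k ≤ j → j < k + L → Crossed ω c j) : CrossR ω c k (k + L) := by
  have main : ∀ i : ℕ, i < L → ∃ s t : ℝ, 0 ≤ s ∧ s ≤ k ∧ ((k + i + 1 : ℕ) : ℝ) ≤ t ∧
      Path ω (up c) c s c t := by
    intro i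
    induction i with
    | zero =>
      intro _
      obtain ⟨s, t, h1, h2, h3, h4⟩ := h k le_rfl (by omega)
      exact ⟨s, t, h1, h2, by push_cast; linarith, h4⟩
    | succ i ih =>
      intro hi
      obtain ⟨s, t, h1, h2, h3, h4⟩ := ih (by omega)
      obtain ⟨s', t', k1, k2, k3, k4⟩ := h (k + (i + 1)) (by omega) (by omega)
      have e1 : ((k + (i + 1) + 1 : ℕ) : ℝ) = ((k + (i + 1) : ℕ) : ℝ) + 1 := by push_cast; ring
      have e2 : ((k + i + 1 : ℕ) : ℝ) = ((k + (i + 1) : ℕ) : ℝ) := by push_cast; ring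
      rw [e1]
      rw [e2] at h3
      rcases le_total s' k with hs | hs
      · exact ⟨s', t', k1, hs, k3, k4⟩
      · rcases le_total t' t with ht | ht
        · exact ⟨s, t, h1, h2, k3.trans ht, h4⟩
        · exact ⟨s, t', h1, h2, k3, h4.chain k4 (h2.trans hs) (k2.trans h3) ht⟩
  obtain ⟨s, t, h1, h2, h3, h4⟩ := main (L - 1) (by omega)
  have e3 : k + (L - 1) + 1 = k + L := by omega
  rw [e3] at h3
  exact ⟨s, t, h1, h2, h3, h4⟩

theorem crossL_of_flip {c : ℤ} {k l : ℕ} (h : CrossR (flip ω) c k l) : CrossL ω (-c) k l := by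
  obtain ⟨s, t, h1, h2, h3, h4⟩ := h
  have h5 := h4.flip
  rw [flip_flip, nset_up] at h5
  exact ⟨s, t, h1, h2, h3, h5⟩

theorem cross_of_cov {M : ℤ} {L : ℕ} (hL : 0 < L) (h : ω ∈ Cov (M + 1) L) :
    ∃ K : ℕ, ∀ k, K ≤ k → CrossR ω (M + 1) k (k + L) ∨ CrossL ω (-M - 1) k (k + L) := by
  obtain ⟨K, hK⟩ := h
  refine ⟨K, fun k hk => ?_⟩
  rcases hK k hk with h1 | h1
  · exact Or.inl (crossR_of hL h1)
  · have h2 := crossL_of_flip (crossR_of hL h1)
    rw [neg_add] at h2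
    exact Or.inr h2

end P50fc31
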