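import Pool.Agent.Lib.P50fc31.Law

/-!
# Independence of events with disjoint coordinates, paths in the sites `≥ c`, null events
-/

set_option autoImplicit false

open MeasureTheory ProbabilityTheory Set
open scoped NNReal ENNReal

namespace P50fc31

/-- the marks used by the paths inside the sites `≥ c` -/
def Jc (c : ℤ) : Set (MT × ℕ) := {i | c ≤ i.1.2 ∧ i.1 ≠ (Kind.left, c)}

theorem path_keep {c : ℤ} {ω : Config} {x y : ℤ} {s t : ℝ} :
    Path (keep (Jc c) ω) (up c) x s y t ↔ Path ω (up c) x s y t := by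
  have h1 : ∀ x ∈ up c, marks (keep (Jc c) ω) (Kind.recover, x) = marks ω (Kind.recover, x) :=
    fun x hx => keep_marks fun k => ⟨mem_up.1 hx, by simp⟩
  have h2 : ∀ x ∈ up c, x + 1 ∈ up c →
      marks (keep (Jc c) ω) (Kind.right, x) = marks ω (Kind.right, x) :=
    fun x hx _ => keep_marks fun k => ⟨mem_up.1 hx, by simp⟩
  have h3 : ∀ x ∈ up c, x - 1 ∈ up c →
      marks (keep (Jc c) ω) (Kind.left, x) = marks ω (Kind.left, x) := by
    intro x hx hx'
    refine keep_marks fun k => ⟨mem_up.1 hx, ?_⟩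
    have := mem_up.1 hx'
    intro h
    simp only [Prod.mk.injEq, true_and] at h
    omega
  constructor
  · intro h
    exact h.congr h1 h2 h3
  · intro h
    exact h.congr (fun x hx => (h1 x hx).symm) (fun x hx hx' => (h2 x hx hx').symm)
      (fun x hx hx' => (h3 x hx hx').symm)

theorem surv_keep {c : ℤ} {ω : Config} {x : ℤ} {s : ℝ} :
    Surv (keep (Jc c) ω) (up c) x s ↔ Surv ω (up c) x s := by
  unfold Surv
  simp only [path_keep]

theorem crossed_keep {c : ℤ} {ω : Config} {k : ℕ} :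
    Crossed (keep (Jc c) ω) c k ↔ Crossed ω c k := by
  unfold Crossed
  simp only [path_keep]

/-- survival inside the sites `≥ c` has probability zero -/
theorem law_surv_up {lam : ℝ≥0} (h0 : theta lam = 0) {c : ℤ} {ρ : MT → ℝ≥0}
    (hρ : ∀ m : MT, c ≤ m.2 → m ≠ (Kind.left, c) → ρ m = hom lam m) (x : ℤ) (K : ℕ) :
    law ρ {ω | Surv ω (up c) x K} = 0 := by
  rw [law_congr (J := Jc c) (ρ' := hom lam) (fun i hi => hρ i.1 hi.1 hi.2)
    (measurableSet_surv (up c) x K) (fun ω => surv_keep)]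
  have h1 : {ω : Config | Surv ω (up c) x K} ⊆ shift x K ⁻¹' {ω | Surv ω univ 0 0} := by
    intro ω hω
    refine Surv.shift (ω := ω) fun n hn => ?_
    obtain ⟨y, hy⟩ := hω n hn
    exact ⟨y, hy.mono (subset_univ _)⟩
  refine measure_mono_null h1 ?_
  rw [← Measure.map_apply (measurable_shift x K) (measurableSet_surv univ 0 0),
    law_map_shift]
  refine measure_mono_null ?_ h0
  intro ω hω t ht
  obtain ⟨n, hn⟩ := exists_nat_ge t
  obtain ⟨y, hy⟩ := hω n (by positivity)
  obtain ⟨z, hz, -⟩ := hy.cut ht hn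
  exact ⟨z, 0, rfl, hz⟩

theorem ae_not_surv_up {lam : ℝ≥0} (h0 : theta lam = 0) {c : ℤ} {ρ : MT → ℝ≥0}
    (hρ : ∀ m : MT, c ≤ m.2 → m ≠ (Kind.left, c) → ρ m = hom lam m) :
    ∀ᵐ ω ∂(law ρ), ∀ (x : ℤ) (K : ℕ), ¬ Surv ω (up c) x K := by
  rw [ae_all_iff]
  intro x
  rw [ae_all_iff]
  intro K
  rw [ae_iff]
  simp only [not_not]
  exact law_surv_up h0 hρ x K

theorem measurable_keep_iSup (J : Set (MT × ℕ)) :
    @Measurable Config Config (⨆ i ∈ J, MeasurableSpace.comap (fun ω : Config => ω i)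
      inferInstance) inferInstance (keep J) := by
  classical
  refine @measurable_pi_lambda _ _ _ (⨆ i ∈ J, MeasurableSpace.comap (fun ω : Config => ω i)
      inferInstance) _ _ fun i => ?_
  by_cases h : i ∈ J
  · simp only [keep, h, if_true]
    have h1 : MeasurableSpace.comap (fun ω : Config => ω i) inferInstance ≤
        ⨆ i ∈ J, MeasurableSpace.comap (fun ω : Config => ω i) inferInstance :=
      le_iSup₂_of_le i h le_rfl
    intro s hs
    exact h1 _ ⟨s, hs, rfl⟩
  · simp only [keep, h, if_false]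
    exact @measurable_const _ _ _ (_) _

/-- events determined by disjoint sets of coordinates are independent -/
theorem indep_keep (ρ : MT → ℝ≥0) {J J' : Set (MT × ℕ)} (hJ : Disjoint J J') :
    Indep (⨆ i ∈ J, MeasurableSpace.comap (fun ω : Config => ω i) inferInstance)
      (⨆ i ∈ J', MeasurableSpace.comap (fun ω : Config => ω i) inferInstance) (law ρ) := by
  have h1 : iIndepFun (fun (i : MT × ℕ) (ω : Config) => ω i) (law ρ) :=
    iIndepFun_infinitePi (P := fun i : MT × ℕ => cellLaw (ρ i.1)) (X := fun _ c => c)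
      fun i => measurable_id
  exact indep_iSup_of_disjoint (fun i => (measurable_pi_apply i).comap_le) h1.iIndep hJ

theorem measurableSet_keep {J : Set (MT × ℕ)} {E : Set Config} (hE : MeasurableSet E)
    (hJ : ∀ ω, keep J ω ∈ E ↔ ω ∈ E) :
    MeasurableSet[⨆ i ∈ J, MeasurableSpace.comap (fun ω : Config => ω i) inferInstance] E := by
  have h1 : keep J ⁻¹' E = E := by
    ext ω
    exact hJ ω
  rw [← h1]
  exact measurable_keep_iSup J hE

theorem law_inter (ρ : MT → ℝ≥0) {J J' : Set (MT × ℕ)} (hJ : Disjoint J J')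
    {E E' : Set Config} (hE : MeasurableSet E) (hE' : MeasurableSet E')
    (h : ∀ ω, keep J ω ∈ E ↔ ω ∈ E) (h' : ∀ ω, keep J' ω ∈ E' ↔ ω ∈ E') :
    law ρ (E ∩ E') = law ρ E * law ρ E' :=
  (Indep_iff _ _ _).1 (indep_keep ρ hJ) E E' (measurableSet_keep hE h)
    (measurableSet_keep hE' h')

end P50fc31
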