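import Pool.Agent.Lib.P50fc31.Reach

/-!
# Infinitely many windows that are not crossed and in which the core is isolated
-/

set_option autoImplicit false

open MeasureTheory ProbabilityTheory Set
open scoped NNReal ENNReal

namespace P50fc31

theorem exists_not_crossed {ω : Config} {c : ℤ} (hF : FinReach ω)
    (hS : ∀ (x : ℤ) (K : ℕ), ¬ Surv ω (up c) x K) (K : ℕ) : ∃ k, K ≤ k ∧ ¬ Crossed ω c k := by
  by_contra hcon
  push Not at hcon
  obtain ⟨N, hN⟩ := hF c.natAbs K
  have hR : ({z : ℤ | |z| ≤ N}).Finite := by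
    refine (Set.finite_Icc (-(N : ℤ)) N).subset ?_
    intro z hz
    exact abs_le.1 hz
  obtain ⟨z, -, hz⟩ := exists_surv (ω := ω) (S := up c) (K := K) hR (fun n hn => by
    obtain ⟨s, t, h1, h2, h3, h4⟩ := exists_long hcon n
    have hKn : (K : ℝ) ≤ n := by exact_mod_cast hn
    obtain ⟨z, k1, k2⟩ := h4.cut h2 (hKn.trans h3)
    obtain ⟨y, k3, -⟩ := k2.cut hKn h3
    refine ⟨z, hN c z s K ?_ le_rfl (k1.mono (subset_univ _)), y, k3⟩
    rw [Int.abs_eq_natAbs])
  exact hS z K hz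

theorem disj_J (a c : ℤ) : Disjoint (Jc c) {i : MT × ℕ | i.1 ∈ Bt a c} := by
  rw [Set.disjoint_left]
  rintro ⟨⟨κ, x⟩, k⟩ ⟨h1, h2⟩ h3
  simp only [Bt, Finset.mem_union, Finset.mem_product, Finset.mem_Ico, Finset.mem_singleton,
    Set.mem_ofPred_eq] at h3 h1 h2
  rcases h3 with ⟨-, h4, h5⟩ | h3
  · omega
  · exact h2 h3

theorem indepFun_UV (ρ : MT → ℝ≥0) {J : Set (MT × ℕ)} {D : ℕ → Set (MT × ℕ)}
    {U V : ℕ → Set Config} (hU : ∀ k, MeasurableSet (U k)) (hV : ∀ k, MeasurableSet (V k))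
    (kU : ∀ k ω, keep J ω ∈ U k ↔ ω ∈ U k) (kV : ∀ k ω, keep (D k) ω ∈ V k ↔ ω ∈ V k)
    (hJ : Disjoint J (⋃ k, D k)) :
    IndepFun (fun (ω : Config) (k : ℕ) => ω ∈ U k)
      (fun (ω : Config) (k : ℕ) => ω ∈ V k) (law ρ) := by
  rw [IndepFun_iff_Indep]
  refine indep_of_indep_of_le_left (indep_of_indep_of_le_right (indep_keep ρ hJ) ?_) ?_
  · rw [← measurable_iff_comap_le]
    refine @measurable_pi_lambda _ _ _ (_) _ _ fun k => ?_
    refine (@measurableSet_setOfPred _ (_) _).1 ?_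
    refine measurableSet_keep (hV k) fun ω => ?_
    show keep _ ω ∈ V k ↔ ω ∈ V k
    rw [← kV k ω, ← kV k (keep _ ω), keep_keep]
    exact Set.subset_iUnion D k
  · rw [← measurable_iff_comap_le]
    refine @measurable_pi_lambda _ _ _ (_) _ _ fun k => ?_
    refine (@measurableSet_setOfPred _ (_) _).1 ?_
    exact measurableSet_keep (hU k) (kU k)

/-- if infinitely many of the events `U k` fail then almost surely infinitely many of them fail with `V k` -/
theorem ae_good (ρ : MT → ℝ≥0) {J : Set (MT × ℕ)} {D : ℕ → Set (MT × ℕ)}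
    {U V : ℕ → Set Config} (hU : ∀ k, MeasurableSet (U k)) (hV : ∀ k, MeasurableSet (V k))
    (kU : ∀ k ω, keep J ω ∈ U k ↔ ω ∈ U k) (kV : ∀ k ω, keep (D k) ω ∈ V k ↔ ω ∈ V k)
    (hJ : Disjoint J (⋃ k, D k)) (hD : ∀ m n, m ≠ n → Disjoint (D m) (D n)) {q : ℝ≥0∞}
    (hq : 0 < q) (hq' : ∀ k, q ≤ law ρ (V k)) :
    ∀ᵐ ω ∂(law ρ), (∀ K, ∃ k, K ≤ k ∧ ω ∉ U k) → ∀ K, ∃ k, K ≤ k ∧ ω ∉ U k ∧ ω ∈ V k := by
  classical
  have hmain : ∀ᵐ ω ∂(law ρ), ∀ K, (∀ K', ∃ k, K' ≤ k ∧ ω ∉ U k) →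
      ∃ k, K ≤ k ∧ ω ∉ U k ∧ ω ∈ V k := by
    rw [ae_all_iff]
    intro K
    set B : Set ((ℕ → Prop) × (ℕ → Prop)) := {p | (∀ K', ∃ k, K' ≤ k ∧ ¬ p.1 k) ∧
      ∀ k, K ≤ k → ¬ p.1 k → ¬ p.2 k} with hB
    have m1 : ∀ k, Measurable fun p : (ℕ → Prop) × (ℕ → Prop) => p.1 k := fun k =>
      (measurable_pi_apply k).comp measurable_fst
    have m2 : ∀ k, Measurable fun p : (ℕ → Prop) × (ℕ → Prop) => p.2 k := fun k =>
      (measurable_pi_apply k).comp measurable_snd
    have mU : Measurable fun (ω : Config) (k : ℕ) => ω ∈ U k :=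
      measurable_pi_lambda _ fun k => measurableSet_setOfPred.1 (hU k)
    have mV : Measurable fun (ω : Config) (k : ℕ) => ω ∈ V k :=
      measurable_pi_lambda _ fun k => measurableSet_setOfPred.1 (hV k)
    have hBm : MeasurableSet B := by
      rw [hB, measurableSet_setOfPred]
      refine Measurable.and ?_ ?_
      · exact Measurable.forall fun K' => Measurable.exists fun k =>
          (measurable_const (a := K' ≤ k)).and (m1 k).not
      · exact Measurable.forall fun k => Measurable.imp measurable_const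
          ((m1 k).not.imp (m2 k).not)
    have hprod := (indepFun_iff_map_prod_eq_prod_map_map mU.aemeasurable
      mV.aemeasurable).1 (indepFun_UV ρ hU hV kU kV hJ)
    have hnull : (law ρ).map (fun ω : Config => ((fun k : ℕ => ω ∈ U k),
        (fun k : ℕ => ω ∈ V k))) B = 0 := by
      rw [hprod, Measure.measure_prod_null hBm]
      refine Filter.Eventually.of_forall fun u => ?_
      simp only [Pi.zero_apply]
      by_cases hu : ∀ K', ∃ k, K' ≤ k ∧ ¬ u k
      · have hinf : ({k | K ≤ k ∧ ¬ u k} : Set ℕ).Infinite := by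
          rw [Set.infinite_iff_exists_gt]
          intro n
          obtain ⟨k, hk, hk'⟩ := hu (max K (n + 1))
          exact ⟨k, ⟨(le_max_left _ _).trans hk, hk'⟩, by
            have := (le_max_right K (n + 1)).trans hk; omega⟩
        have h1 := law_none ρ hD hV kV hq hq' hinf
        have hsec : MeasurableSet (Prod.mk u ⁻¹' B) := measurable_prodMk_left hBm
        rw [Measure.map_apply mV hsec]
        refine measure_mono_null ?_ h1
        intro ω hω k hk
        exact hω.2 k hk.1 hk.2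
      · have h1 : Prod.mk u ⁻¹' B = ∅ := by
          ext v
          simp only [Set.mem_preimage, Set.mem_empty_iff_false, iff_false]
          intro hv
          exact hu hv.1
        rw [h1, measure_empty]
    rw [Measure.map_apply (mU.prodMk mV) hBm] at hnull
    rw [measure_eq_zero_iff_ae_notMem] at hnull
    filter_upwards [hnull] with ω h2 h1
    by_contra hcon
    push Not at hcon
    exact h2 ⟨h1, hcon⟩
  filter_upwards [hmain] with ω h1 h2 K
  exact h1 K h2

theorem disj_Di (a c : ℤ) (m n : ℕ) (hmn : m ≠ n) : Disjoint (Di a c m) (Di a c n) := by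
  rw [Set.disjoint_left]
  rintro i ⟨-, h1⟩ ⟨-, h2⟩
  exact hmn (h1.symm.trans h2)

theorem ae_good_right {ρ : MT → ℝ≥0} (a c : ℤ) (hr : ∀ x, 0 < ρ (Kind.recover, x)) :
    ∀ᵐ ω ∂(law ρ), (∀ K, ∃ k, K ≤ k ∧ ¬ Crossed ω c k) →
      ∀ K, ∃ k, K ≤ k ∧ ¬ Crossed ω c k ∧ Iso ω a c k := by
  obtain ⟨q, hq, hq'⟩ := exists_iso_pos (ρ := ρ) (a := a) (c := c) hr
  have hJ : Disjoint (Jc c) (⋃ k, Di a c k) := by
    rw [Set.disjoint_iUnion_right]
    intro k
    exact (disj_J a c).mono_right fun i hi => hi.1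
  exact ae_good ρ (U := fun k => {ω | Crossed ω c k}) (V := fun k => {ω | Iso ω a c k})
    (measurableSet_crossed c) (measurableSet_iso a c) (fun k ω => crossed_keep)
    (fun k ω => keep_iso k ω) hJ (disj_Di a c) hq fun k => (hq' k).ge

end P50fc31
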