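import Pool.Agent.Lib.P50fc31.Meas

/-!
# Changes of the law: modification outside a set of coordinates, shifts, reflection
-/

set_option autoImplicit false

open MeasureTheory ProbabilityTheory Set
open scoped NNReal ENNReal

namespace P50fc31

open Classical in
/-- forget the marks outside `J` -/
noncomputable def keep (J : Set (MT × ℕ)) (ω : Config) : Config := fun i =>
  if i ∈ J then ω i else (0, fun _ => 0)

theorem keep_of_mem {J : Set (MT × ℕ)} {ω : Config} {i : MT × ℕ} (h : i ∈ J) :
    keep J ω i = ω i := by simp [keep, h]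

theorem keep_marks {J : Set (MT × ℕ)} {ω : Config} {m : MT} (h : ∀ k, (m, k) ∈ J) :
    marks (keep J ω) m = marks ω m := by
  unfold marks
  simp only [keep_of_mem (h _)]

theorem measurable_keep (J : Set (MT × ℕ)) : Measurable (keep J) := by
  classical
  refine measurable_pi_lambda _ fun i => ?_
  by_cases h : i ∈ J
  · simp only [keep, h, if_true]
    exact measurable_pi_apply i
  · simp only [keep, h, if_false]
    exact measurable_const

theorem law_map_keep (J : Set (MT × ℕ)) {ρ ρ' : MT → ℝ≥0} (h : ∀ i ∈ J, ρ i.1 = ρ' i.1) :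
    (law ρ).map (keep J) = (law ρ').map (keep J) := by
  classical
  have h0 : ∀ i : MT × ℕ, Measurable (fun c : Cell => if i ∈ J then c else (0, fun _ => 0)) := by
    intro i
    by_cases hi : i ∈ J
    · simp only [hi, if_true]
      exact measurable_id
    · simp only [hi, if_false]
      exact measurable_const
  have h1 : ∀ ρ : MT → ℝ≥0, (law ρ).map (keep J) = Measure.infinitePi fun i : MT × ℕ =>
      (cellLaw (ρ i.1)).map (fun c : Cell => if i ∈ J then c else (0, fun _ => 0)) := by
    intro ρ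
    exact Measure.infinitePi_map_pi (μ := fun i : MT × ℕ => cellLaw (ρ i.1)) h0
  rw [h1, h1]
  congr 1
  funext i
  by_cases hi : i ∈ J
  · rw [h i hi]
  · simp only [hi, if_false]
    rw [Measure.map_const, Measure.map_const]
    simp

/-- an event that only depends on the coordinates in `J` has the same probability if the rates agree there -/
theorem law_congr {J : Set (MT × ℕ)} {ρ ρ' : MT → ℝ≥0} (h : ∀ i ∈ J, ρ i.1 = ρ' i.1)
    {E : Set Config} (hE : MeasurableSet E) (hJ : ∀ ω, keep J ω ∈ E ↔ ω ∈ E) :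
    law ρ E = law ρ' E := by
  have h1 : keep J ⁻¹' E = E := by
    ext ω
    exact hJ ω
  rw [← h1, ← Measure.map_apply (measurable_keep J) hE, law_map_keep J h,
    Measure.map_apply (measurable_keep J) hE]

/-- the shift by `z` in space and `K` in time -/
def shiftIdx (z : ℤ) (K : ℕ) (i : MT × ℕ) : MT × ℕ := ((i.1.1, i.1.2 + z), i.2 + K)

theorem shiftIdx_inj (z : ℤ) (K : ℕ) : Function.Injective (shiftIdx z K) := by
  rintro ⟨⟨κ, x⟩, k⟩ ⟨⟨κ', x'⟩, k'⟩ h
  simp only [shiftIdx, Prod.mk.injEq] at h
  obtain ⟨⟨h1, h2⟩, h3⟩ := h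
  have e1 : x = x' := by omega
  have e2 : k = k' := by omega
  subst h1 e1 e2
  rfl

/-- the shifted configuration -/
def shift (z : ℤ) (K : ℕ) (ω : Config) : Config := fun i => ω (shiftIdx z K i)

theorem measurable_shift (z : ℤ) (K : ℕ) : Measurable (shift z K) :=
  measurable_pi_lambda _ fun _ => measurable_pi_apply _

theorem law_map_shift (lam : ℝ≥0) (z : ℤ) (K : ℕ) :
    (law (hom lam)).map (shift z K) = law (hom lam) := by
  have h1 := Measure.map_infinitePi_infinitePi_of_inj
    (P := fun i : MT × ℕ => cellLaw (hom lam i.1)) (shiftIdx_inj z K)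
  have h2 : (fun i : MT × ℕ => cellLaw (hom lam (shiftIdx z K i).1)) =
      fun i : MT × ℕ => cellLaw (hom lam i.1) := by
    funext i
    obtain ⟨⟨κ, x⟩, k⟩ := i
    cases κ <;> rfl
  rw [h2] at h1
  exact h1

theorem marks_ne_nat {ω : Config} {m : MT} {t : ℝ} (h : t ∈ marks ω m) (K : ℕ) : t ≠ K := by
  obtain ⟨k, n, -, h2, h3, rfl⟩ := h
  intro h4
  have h5 : (k : ℝ) < K := by linarith
  have h6 : (K : ℝ) < k + 1 := by linarith
  have h7 : k < K := by exact_mod_cast h5
  have h8 : K < k + 1 := by exact_mod_cast h6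
  omega

theorem mem_marks_shift {ω : Config} {z : ℤ} {K : ℕ} {κ : Kind} {x : ℤ} {t : ℝ} :
    t ∈ marks (shift z K ω) (κ, x) ↔ 0 < t ∧ t + K ∈ marks ω (κ, x + z) := by
  constructor
  · intro h
    refine ⟨marks_pos h, ?_⟩
    obtain ⟨k, n, h1, h2, h3, rfl⟩ := h
    refine ⟨k + K, n, h1, h2, h3, ?_⟩
    simp only [shift, shiftIdx]
    push_cast
    ring
  · rintro ⟨h0, k, n, h1, h2, h3, h4⟩
    have h5 : (K : ℝ) < k + 1 := by linarith
    have h6 : K < k + 1 := by exact_mod_cast h5
    obtain ⟨j, rfl⟩ : ∃ j, k = j + K := ⟨k - K, by omega⟩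
    refine ⟨j, n, h1, h2, h3, ?_⟩
    simp only [shift, shiftIdx]
    push_cast at h4
    linarith

theorem Calm.shift {ω : Config} {z : ℤ} {K : ℕ} {x : ℤ} {s t : ℝ} (h : Calm ω x s t) :
    Calm (shift z K ω) (x - z) (s - K) (t - K) := by
  intro u hu hsu
  obtain ⟨h1, h2⟩ := mem_marks_shift.1 hu
  rw [sub_add_cancel] at h2
  have := h _ h2 (by linarith)
  linarith

theorem Path.shift {ω : Config} {z : ℤ} {K : ℕ} {x y : ℤ} {s t : ℝ}
    (h : Path ω univ x s y t) (hs : (K : ℝ) ≤ s) :
    Path (shift z K ω) univ (x - z) (s - K) (y - z) (t - K) := by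
  induction h with
  | stay _ h2 h3 => exact Path.stay (mem_univ _) (by linarith) h3.shift
  | @right x s u y t _ h2 h3 h4 h5 ih =>
    have e1 := ih (hs.trans h2)
    have e2 : x + 1 - z = x - z + 1 := by ring
    rw [e2] at e1
    refine Path.right (mem_univ _) (by linarith) h3.shift (mem_marks_shift.2 ⟨?_, ?_⟩) e1
    · have := lt_of_le_of_ne (hs.trans h2) (Ne.symm (marks_ne_nat h4 K))
      linarith
    · rwa [sub_add_cancel, sub_add_cancel]
  | @left x s u y t _ h2 h3 h4 h5 ih =>
    have e1 := ih (hs.trans h2)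
    have e2 : x - 1 - z = x - z - 1 := by ring
    rw [e2] at e1
    refine Path.left (mem_univ _) (by linarith) h3.shift (mem_marks_shift.2 ⟨?_, ?_⟩) e1
    · have := lt_of_le_of_ne (hs.trans h2) (Ne.symm (marks_ne_nat h4 K))
      linarith
    · rwa [sub_add_cancel, sub_add_cancel]

theorem Surv.shift {ω : Config} {x : ℤ} {K : ℕ} (h : Surv ω univ x K) :
    Surv (shift x K ω) univ 0 0 := by
  intro n _
  obtain ⟨y, hy⟩ := h (n + K) (by push_cast; linarith [(Nat.cast_nonneg n : (0 : ℝ) ≤ n)])
  have h1 := hy.shift (z := x) (K := K) le_rfl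
  refine ⟨y - x, ?_⟩
  have e1 : ((n + K : ℕ) : ℝ) - K = n := by push_cast; ring
  rwa [e1, sub_self, sub_self] at h1

/-- the reflection -/
def flipK : Kind → Kind
  | Kind.recover => Kind.recover
  | Kind.right => Kind.left
  | Kind.left => Kind.right

/-- the reflection of the types -/
def flipM (m : MT) : MT := (flipK m.1, -m.2)

theorem flipM_flipM (m : MT) : flipM (flipM m) = m := by
  obtain ⟨κ, x⟩ := m
  cases κ <;> simp [flipM, flipK]

/-- the reflected configuration -/
def flip (ω : Config) : Config := fun i => ω (flipM i.1, i.2)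

theorem measurable_flip : Measurable flip :=
  measurable_pi_lambda _ fun _ => measurable_pi_apply _

theorem law_map_flip (ρ : MT → ℝ≥0) :
    (law ρ).map flip = law (fun m => ρ (flipM m)) := by
  have hinj : Function.Injective fun i : MT × ℕ => (flipM i.1, i.2) := by
    rintro ⟨m, k⟩ ⟨m', k'⟩ h
    simp only [Prod.mk.injEq] at h
    obtain ⟨h1, h2⟩ := h
    have h3 : m = m' := by rw [← flipM_flipM m, h1, flipM_flipM]
    rw [h3, h2]
  exact Measure.map_infinitePi_infinitePi_of_inj
    (P := fun i : MT × ℕ => cellLaw (ρ i.1)) hinj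

theorem marks_flip (ω : Config) (m : MT) : marks (flip ω) m = marks ω (flipM m) := rfl

theorem flip_flip (ω : Config) : flip (flip ω) = ω := by
  funext i
  simp only [flip, flipM_flipM]

/-- reflection of a set of sites -/
def nset (S : Set ℤ) : Set ℤ := {x | -x ∈ S}

theorem Calm.flip {ω : Config} {x : ℤ} {s t : ℝ} (h : Calm ω x s t) :
    Calm (flip ω) (-x) s t := by
  intro u hu hsu
  rw [marks_flip] at hu
  simp only [flipM, flipK, neg_neg] at hu
  exact h u hu hsu

theorem Path.flip {ω : Config} {S : Set ℤ} {x y : ℤ} {s t : ℝ} (h : Path ω S x s y t) :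
    Path (flip ω) (nset S) (-x) s (-y) t := by
  induction h with
  | @stay x s t h1 h2 h3 =>
    exact Path.stay (show -(-x) ∈ S by rwa [neg_neg]) h2 h3.flip
  | @right x s u y t h1 h2 h3 h4 h5 ih =>
    refine Path.left (show -(-x) ∈ S by rwa [neg_neg]) h2 h3.flip ?_ ?_ (u := u)
    · rw [marks_flip]
      simpa only [flipM, flipK, neg_neg] using h4
    · have e1 : -x - 1 = -(x + 1) := by ring
      rw [e1]
      exact ih
  | @left x s u y t h1 h2 h3 h4 h5 ih =>
    refine Path.right (show -(-x) ∈ S by rwa [neg_neg]) h2 h3.flip ?_ ?_ (u := u)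
    · rw [marks_flip]
      simpa only [flipM, flipK, neg_neg] using h4
    · have e1 : -x + 1 = -(x - 1) := by ring
      rw [e1]
      exact ih

end P50fc31
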