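import Pool.Agent.Lib.P50fc31.Basic

/-!
# Measurability of the path events
-/

set_option autoImplicit false

open MeasureTheory ProbabilityTheory Set
open scoped NNReal ENNReal

namespace P50fc31

/-- the time of the mark number `n` of type `m` in the window `k` -/
def mt (ω : Config) (m : MT) (k n : ℕ) : ℝ := k + (ω (m, k)).2 n

/-- the mark number `n` of type `m` in the window `k` exists -/
def IsMark (ω : Config) (m : MT) (k n : ℕ) : Prop :=
  n < (ω (m, k)).1 ∧ 0 < (ω (m, k)).2 n ∧ (ω (m, k)).2 n < 1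

theorem mem_marks {ω : Config} {m : MT} {t : ℝ} :
    t ∈ marks ω m ↔ ∃ k n, IsMark ω m k n ∧ t = mt ω m k n := by
  constructor
  · rintro ⟨k, n, h1, h2, h3, h4⟩
    exact ⟨k, n, ⟨h1, h2, h3⟩, h4⟩
  · rintro ⟨k, n, ⟨h1, h2, h3⟩, h4⟩
    exact ⟨k, n, h1, h2, h3, h4⟩

theorem marks_pos {ω : Config} {m : MT} {t : ℝ} (h : t ∈ marks ω m) : 0 < t := by
  obtain ⟨k, n, -, h2, -, rfl⟩ := h
  positivity

theorem measurable_mt (m : MT) (k n : ℕ) : Measurable fun ω : Config => mt ω m k n := by
  unfold mt
  fun_prop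

theorem measurable_isMark (m : MT) (k n : ℕ) :
    Measurable fun ω : Config => IsMark ω m k n := by
  have h1 : Measurable fun ω : Config => (ω (m, k)).1 := by fun_prop
  have h2 : Measurable fun ω : Config => (ω (m, k)).2 n := by fun_prop
  have e1 : MeasurableSet {ω : Config | n < (ω (m, k)).1} := measurableSet_lt measurable_const h1
  have e2 : MeasurableSet {ω : Config | 0 < (ω (m, k)).2 n} :=
    measurableSet_lt measurable_const h2
  have e3 : MeasurableSet {ω : Config | (ω (m, k)).2 n < 1} :=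
    measurableSet_lt h2 measurable_const
  exact measurableSet_setOfPred.1 (e1.inter (e2.inter e3))

theorem calm_iff {ω : Config} {x : ℤ} {s t : ℝ} :
    Calm ω x s t ↔ ∀ k n, IsMark ω (Kind.recover, x) k n → s < mt ω (Kind.recover, x) k n →
      t < mt ω (Kind.recover, x) k n := by
  constructor
  · intro h k n h1 h2
    exact h _ (mem_marks.2 ⟨k, n, h1, rfl⟩) h2
  · intro h u hu hsu
    obtain ⟨k, n, h1, rfl⟩ := mem_marks.1 hu
    exact h k n h1 hsu

theorem measurable_calm (x : ℤ) {f g : Config → ℝ} (hf : Measurable f) (hg : Measurable g) :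
    Measurable fun ω : Config => Calm ω x (f ω) (g ω) := by
  have h0 : (fun ω : Config => Calm ω x (f ω) (g ω)) = fun ω => ∀ k n,
      IsMark ω (Kind.recover, x) k n → f ω < mt ω (Kind.recover, x) k n →
      g ω < mt ω (Kind.recover, x) k n := by
    funext ω
    exact propext calm_iff
  rw [h0]
  refine Measurable.forall fun k => Measurable.forall fun n => ?_
  refine (measurable_isMark _ k n).imp ?_
  refine Measurable.imp ?_ ?_
  · exact measurableSet_setOfPred.1 (measurableSet_lt hf (measurable_mt _ k n))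
  · exact measurableSet_setOfPred.1 (measurableSet_lt hg (measurable_mt _ k n))

/-- there is a path from `x` at time `s` to `y` at some time `≥ T` -/
def Far (ω : Config) (S : Set ℤ) (x : ℤ) (s : ℝ) (y : ℤ) (T : ℝ) : Prop :=
  ∃ t, T ≤ t ∧ Path ω S x s y t

/-- the kind of the arrows in the two directions -/
def kd : Bool → Kind
  | true => Kind.right
  | false => Kind.left

/-- the displacement -/
def dx : Bool → ℤ
  | true => 1
  | false => -1

/-- paths with a prescribed itinerary -/
def PathM (ω : Config) (S : Set ℤ) (y : ℤ) (T : ℝ) : List (Bool × ℕ × ℕ) → ℤ → ℝ → Prop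
  | [], x, s => x = y ∧ x ∈ S ∧ Calm ω x s (max s T)
  | (d, k, n) :: l, x, s => x ∈ S ∧ IsMark ω (kd d, x) k n ∧ s ≤ mt ω (kd d, x) k n ∧
      Calm ω x s (mt ω (kd d, x) k n) ∧ PathM ω S y T l (x + dx d) (mt ω (kd d, x) k n)

theorem far_iff {ω : Config} {S : Set ℤ} {x : ℤ} {s : ℝ} {y : ℤ} {T : ℝ} :
    Far ω S x s y T ↔ ∃ l, PathM ω S y T l x s := by
  constructor
  · rintro ⟨t, hT, h⟩
    induction h with
    | @stay x s t h1 h2 h3 =>
      exact ⟨[], rfl, h1, h3.mono le_rfl (max_le h2 hT)⟩
    | @right x s u y t h1 h2 h3 h4 h5 ih =>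
      obtain ⟨l, hl⟩ := ih hT
      obtain ⟨k, n, h6, rfl⟩ := mem_marks.1 h4
      exact ⟨(true, k, n) :: l, h1, h6, h2, h3, hl⟩
    | @left x s u y t h1 h2 h3 h4 h5 ih =>
      obtain ⟨l, hl⟩ := ih hT
      obtain ⟨k, n, h6, rfl⟩ := mem_marks.1 h4
      exact ⟨(false, k, n) :: l, h1, h6, h2, h3, hl⟩
  · rintro ⟨l, hl⟩
    induction l generalizing x s with
    | nil =>
      obtain ⟨rfl, h1, h2⟩ := hl
      exact ⟨max s T, le_max_right _ _, Path.stay h1 (le_max_left _ _) h2⟩
    | cons a l ih =>
      obtain ⟨d, k, n⟩ := a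
      obtain ⟨h1, h2, h3, h4, h5⟩ := hl
      obtain ⟨t, hT, h6⟩ := ih h5
      cases d with
      | true => exact ⟨t, hT, Path.right h1 h3 h4 (mem_marks.2 ⟨k, n, h2, rfl⟩) h6⟩
      | false => exact ⟨t, hT, Path.left h1 h3 h4 (mem_marks.2 ⟨k, n, h2, rfl⟩) h6⟩

theorem measurable_pathM (S : Set ℤ) (y : ℤ) (T : ℝ) (l : List (Bool × ℕ × ℕ)) :
    ∀ (x : ℤ) {f : Config → ℝ}, Measurable f →
      Measurable fun ω : Config => PathM ω S y T l x (f ω) := by
  induction l with
  | nil =>
    intro x f hf
    exact (measurable_const (a := x = y)).and ((measurable_const (a := x ∈ S)).and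
      (measurable_calm x hf (hf.max measurable_const)))
  | cons a l ih =>
    obtain ⟨d, k, n⟩ := a
    intro x f hf
    have h1 := measurable_mt (kd d, x) k n
    exact (measurable_const (a := x ∈ S)).and ((measurable_isMark _ k n).and
      ((measurableSet_setOfPred.1 (measurableSet_le hf h1)).and
        ((measurable_calm x hf h1).and (ih (x + dx d) h1))))

theorem measurable_far (S : Set ℤ) (x : ℤ) {f : Config → ℝ} (hf : Measurable f) (y : ℤ)
    (T : ℝ) : Measurable fun ω : Config => Far ω S x (f ω) y T := by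
  have h0 : (fun ω : Config => Far ω S x (f ω) y T) = fun ω => ∃ l, PathM ω S y T l x (f ω) := by
    funext ω
    exact propext far_iff
  rw [h0]
  exact Measurable.exists fun l => measurable_pathM S y T l x hf

theorem surv_iff {ω : Config} {S : Set ℤ} {x : ℤ} {s : ℝ} :
    Surv ω S x s ↔ ∀ n : ℕ, s ≤ n → ∃ y, Far ω S x s y n := by
  constructor
  · intro h n hn
    obtain ⟨y, hy⟩ := h n hn
    exact ⟨y, n, le_rfl, hy⟩
  · intro h n hn
    obtain ⟨y, t, ht, hy⟩ := h n hn
    obtain ⟨z, hz, -⟩ := hy.cut hn ht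
    exact ⟨z, hz⟩

theorem measurableSet_surv (S : Set ℤ) (x : ℤ) (s : ℝ) :
    MeasurableSet {ω : Config | Surv ω S x s} := by
  rw [measurableSet_setOfPred]
  have h0 : (fun ω : Config => Surv ω S x s) = fun ω => ∀ n : ℕ, s ≤ n → ∃ y, Far ω S x s y n := by
    funext ω
    exact propext surv_iff
  rw [h0]
  refine Measurable.forall fun n => Measurable.imp measurable_const ?_
  exact Measurable.exists fun y => measurable_far S x measurable_const y n

theorem crossed_iff {ω : Config} {c : ℤ} {k : ℕ} :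
    Crossed ω c k ↔ Far ω (up c) c k c (k + 1) ∨ ∃ k' n', IsMark ω (Kind.right, c) k' n' ∧
      mt ω (Kind.right, c) k' n' ≤ k ∧
      Far ω (up c) (c + 1) (mt ω (Kind.right, c) k' n') c (k + 1) := by
  constructor
  · rintro ⟨s, t, h0, hs, ht, h⟩
    cases h with
    | stay h1 h2 h3 =>
      exact Or.inl ⟨t, ht, Path.stay h1 (by linarith) (h3.mono hs le_rfl)⟩
    | @right _ _ u _ _ h1 h2 h3 h4 h5 =>
      rcases le_total u k with hu | hu
      · obtain ⟨k', n', h6, rfl⟩ := mem_marks.1 h4
        exact Or.inr ⟨k', n', h6, hu, t, ht, h5⟩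
      · exact Or.inl ⟨t, ht, Path.right h1 hu (h3.mono hs le_rfl) h4 h5⟩
    | @left _ _ u _ _ h1 h2 h3 h4 h5 =>
      have := mem_up.1 h5.mem_left
      omega
  · rintro (⟨t, ht, h⟩ | ⟨k', n', h1, h2, t, ht, h⟩)
    · exact ⟨k, t, Nat.cast_nonneg k, le_rfl, ht, h⟩
    · have h3 : mt ω (Kind.right, c) k' n' ∈ marks ω (Kind.right, c) :=
        mem_marks.2 ⟨k', n', h1, rfl⟩
      exact ⟨_, t, (marks_pos h3).le, h2, ht,
        Path.right (mem_up.2 le_rfl) le_rfl (calm_self ω c _) h3 h⟩

theorem measurableSet_crossed (c : ℤ) (k : ℕ) : MeasurableSet {ω : Config | Crossed ω c k} := by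
  rw [measurableSet_setOfPred]
  have h0 : (fun ω : Config => Crossed ω c k) = fun ω => Far ω (up c) c k c (k + 1) ∨
      ∃ k' n', IsMark ω (Kind.right, c) k' n' ∧ mt ω (Kind.right, c) k' n' ≤ k ∧
      Far ω (up c) (c + 1) (mt ω (Kind.right, c) k' n') c (k + 1) := by
    funext ω
    exact propext crossed_iff
  rw [h0]
  refine Measurable.or (measurable_far _ _ measurable_const _ _) ?_
  refine Measurable.exists fun k' => Measurable.exists fun n' => ?_
  refine (measurable_isMark _ k' n').and (Measurable.and ?_ ?_)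
  · exact measurableSet_setOfPred.1 (measurableSet_le (measurable_mt _ k' n') measurable_const)
  · exact measurable_far _ _ (measurable_mt _ k' n') _ _

theorem measurableSet_iso (a c : ℤ) (k : ℕ) : MeasurableSet {ω : Config | Iso ω a c k} := by
  rw [measurableSet_setOfPred]
  have h1 : ∀ m : MT, Measurable fun ω : Config => (ω (m, k)).1 := fun m => by fun_prop
  have h2 : ∀ m : MT, Measurable fun ω : Config => (ω (m, k)).2 0 := fun m => by fun_prop
  have e0 : ∀ m : MT, Measurable fun ω : Config => (ω (m, k)).1 = 0 := fun m =>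
    measurableSet_setOfPred.1 (measurableSet_eq_fun (h1 m) measurable_const)
  have e1 : ∀ m : MT, Measurable fun ω : Config => 0 < (ω (m, k)).1 := fun m =>
    measurableSet_setOfPred.1 (measurableSet_lt measurable_const (h1 m))
  have e2 : ∀ m : MT, Measurable fun ω : Config => 0 < (ω (m, k)).2 0 := fun m =>
    measurableSet_setOfPred.1 (measurableSet_lt measurable_const (h2 m))
  have e3 : ∀ m : MT, Measurable fun ω : Config => (ω (m, k)).2 0 < 1 := fun m =>
    measurableSet_setOfPred.1 (measurableSet_lt (h2 m) measurable_const)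
  unfold Iso
  refine Measurable.and ?_ (e0 _)
  refine Measurable.forall fun x => Measurable.imp measurable_const
    (Measurable.imp measurable_const ?_)
  exact (e0 _).and ((e0 _).and ((e1 _).and ((e2 _).and (e3 _))))

end P50fc31
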