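import Pool.Agent.Lib.P50fc31.Ind

/-!
# The probability of the isolation event, finite reach
-/

set_option autoImplicit false

open MeasureTheory ProbabilityTheory Set
open scoped NNReal ENNReal

namespace P50fc31

theorem cell_zero (r : ℝ≥0) : cellLaw r {c : Cell | c.1 = 0} = ENNReal.ofReal (Real.exp (-r)) := by
  have h1 : {c : Cell | c.1 = 0} = ({0} : Set ℕ) ×ˢ (univ : Set (ℕ → ℝ)) := by
    ext c
    simp
  rw [h1, cellLaw, Measure.prod_prod, measure_univ, mul_one, poissonMeasure_singleton]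
  simp

theorem cell_pos {r : ℝ≥0} (hr : 0 < r) :
    0 < cellLaw r {c : Cell | 0 < c.1 ∧ 0 < c.2 0 ∧ c.2 0 < 1} := by
  have h1 : {c : Cell | 0 < c.1 ∧ 0 < c.2 0 ∧ c.2 0 < 1} =
      (Ioi 0 : Set ℕ) ×ˢ {f : ℕ → ℝ | f 0 ∈ Ioo (0 : ℝ) 1} := by
    ext c
    simp
  have h2 : (Measure.infinitePi fun _ : ℕ => unif) {f : ℕ → ℝ | f 0 ∈ Ioo (0 : ℝ) 1} = 1 := by
    have h3 : {f : ℕ → ℝ | f 0 ∈ Ioo (0 : ℝ) 1} = (fun f : ℕ → ℝ => f 0) ⁻¹' Ioo (0 : ℝ) 1 := rfl
    rw [h3, ← Measure.map_apply (measurable_pi_apply 0) measurableSet_Ioo,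
      Measure.infinitePi_map_eval]
    simp [unif]
  rw [h1, cellLaw, Measure.prod_prod, h2, mul_one]
  have h4 : ({1} : Set ℕ) ⊆ Ioi 0 := by
    intro n hn
    rw [mem_singleton_iff] at hn
    rw [hn]
    exact Nat.one_pos
  refine lt_of_lt_of_le ?_ (measure_mono h4)
  rw [poissonMeasure_singleton]
  simp only [ENNReal.ofReal_pos]
  positivity

theorem law_box (ρ : MT → ℝ≥0) (F : Finset (MT × ℕ)) {t : MT × ℕ → Set Cell}
    (ht : ∀ i ∈ F, MeasurableSet (t i)) :
    law ρ {ω | ∀ i ∈ F, ω i ∈ t i} = ∏ i ∈ F, cellLaw (ρ i.1) (t i) := by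
  have h1 := Measure.infinitePi_pi (fun i : MT × ℕ => cellLaw (ρ i.1)) (s := F) (t := t) ht
  rw [← h1]
  rfl

theorem keep_keep {J J' : Set (MT × ℕ)} (h : J ⊆ J') (ω : Config) :
    keep J (keep J' ω) = keep J ω := by
  classical
  funext i
  by_cases hi : i ∈ J
  · simp [keep, hi, h hi]
  · simp [keep, hi]

/-- independent events with probabilities bounded below: one of infinitely many occurs -/
theorem law_none (ρ : MT → ℝ≥0) {D : ℕ → Set (MT × ℕ)}
    (hD : ∀ m n, m ≠ n → Disjoint (D m) (D n)) {E : ℕ → Set Config}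
    (hE : ∀ n, MeasurableSet (E n)) (hk : ∀ n ω, keep (D n) ω ∈ E n ↔ ω ∈ E n) {q : ℝ≥0∞}
    (hq : 0 < q) (hp : ∀ n, q ≤ law ρ (E n)) {u : Set ℕ} (hu : u.Infinite) :
    law ρ {ω | ∀ n ∈ u, ω ∉ E n} = 0 := by
  classical
  have main : ∀ T : Finset ℕ, law ρ {ω | ∀ n ∈ T, ω ∉ E n} ≤ (1 - q) ^ T.card := by
    intro T
    induction T using Finset.induction_on with
    | empty =>
      simp
    | insert a T ha ih =>
      have h1 : {ω | ∀ n ∈ insert a T, ω ∉ E n} = (E a)ᶜ ∩ {ω | ∀ n ∈ T, ω ∉ E n} := by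
        ext ω
        simp
      have hm : MeasurableSet {ω | ∀ n ∈ T, ω ∉ E n} := by
        have h2 : {ω | ∀ n ∈ T, ω ∉ E n} = ⋂ n ∈ T, (E n)ᶜ := by
          ext ω
          simp
        rw [h2]
        exact Finset.measurableSet_biInter T fun n _ => (hE n).compl
      have hdis : Disjoint (D a) (⋃ n ∈ T, D n) := by
        rw [Set.disjoint_iUnion₂_right]
        intro n hn
        refine hD a n ?_
        rintro rfl
        exact ha hn
      rw [h1, law_inter ρ hdis (hE a).compl hm (fun ω => not_congr (hk a ω)) ?_,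
        Finset.card_insert_of_notMem ha, pow_succ, mul_comm]
      · refine mul_le_mul' ih ?_
        rw [prob_compl_eq_one_sub (hE a)]
        exact tsub_le_tsub_left (hp a) 1
      · intro ω
        refine forall₂_congr fun n hn => not_congr ?_
        rw [← hk n ω, ← hk n (keep _ ω), keep_keep]
        exact Set.subset_biUnion_of_mem (u := fun n => D n) (show n ∈ (T : Set ℕ) from hn)
  have h2 : ∀ n : ℕ, law ρ {ω | ∀ n ∈ u, ω ∉ E n} ≤ (1 - q) ^ n := by
    intro n
    obtain ⟨T, hT, hTn⟩ := hu.exists_subset_card_eq n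
    refine le_trans (measure_mono ?_) (hTn ▸ main T)
    intro ω hω m hm
    exact hω m (hT hm)
  have h3 : Filter.Tendsto (fun n : ℕ => (1 - q) ^ n) Filter.atTop (nhds 0) := by
    refine ENNReal.tendsto_pow_atTop_nhds_zero_of_lt_one ?_
    exact ENNReal.sub_lt_self ENNReal.one_ne_top one_ne_zero hq.ne'
  exact le_antisymm (ge_of_tendsto' h3 h2) bot_le

/-- the types of the marks of the isolation event -/
noncomputable def Bt (a c : ℤ) : Finset MT :=
  (({Kind.recover, Kind.right, Kind.left} : Finset Kind) ×ˢ Finset.Ico a c) ∪ {(Kind.left, c)}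

/-- the conditions of the isolation event -/
noncomputable def Bs (m : MT) : Set Cell :=
  if m.1 = Kind.recover then {c : Cell | 0 < c.1 ∧ 0 < c.2 0 ∧ c.2 0 < 1} else {c | c.1 = 0}

theorem measurableSet_Bs (m : MT) : MeasurableSet (Bs m) := by
  have h1 : Measurable fun c : Cell => c.1 := measurable_fst
  have h2 : Measurable fun c : Cell => c.2 0 := (measurable_pi_apply 0).comp measurable_snd
  unfold Bs
  split_ifs
  · exact (measurableSet_lt measurable_const h1).inter
      ((measurableSet_lt measurable_const h2).inter (measurableSet_lt h2 measurable_const))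
  · exact measurableSet_eq_fun h1 measurable_const

theorem iso_iff {ω : Config} {a c : ℤ} {k : ℕ} :
    Iso ω a c k ↔ ∀ m ∈ Bt a c, ω (m, k) ∈ Bs m := by
  constructor
  · rintro ⟨h1, h2⟩ ⟨κ, x⟩ hm
    simp only [Bt, Finset.mem_union, Finset.mem_product, Finset.mem_Ico, Finset.mem_singleton,
      Prod.mk.injEq] at hm
    rcases hm with ⟨-, hx, hx'⟩ | ⟨rfl, rfl⟩
    · obtain ⟨k1, k2, k3, k4, k5⟩ := h1 x hx hx'
      cases κ
      · simpa [Bs] using ⟨k3, k4, k5⟩
      · simpa [Bs] using k1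
      · simpa [Bs] using k2
    · simpa [Bs] using h2
  · intro h
    refine ⟨fun x hx hx' => ?_, ?_⟩
    · have k1 := h (Kind.right, x) (by simp [Bt, hx, hx'])
      have k2 := h (Kind.left, x) (by simp [Bt, hx, hx'])
      have k3 := h (Kind.recover, x) (by simp [Bt, hx, hx'])
      simp only [Bs, reduceCtorEq, if_false] at k1 k2
      simp only [Bs, if_true] at k3
      exact ⟨k1, k2, k3.1, k3.2.1, k3.2.2⟩
    · have k1 := h (Kind.left, c) (by simp [Bt])
      simp only [Bs, reduceCtorEq, if_false] at k1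
      exact k1

/-- the coordinates of the isolation event -/
noncomputable def Di (a c : ℤ) (k : ℕ) : Set (MT × ℕ) := {i | i.1 ∈ Bt a c ∧ i.2 = k}

theorem keep_iso {a c : ℤ} (k : ℕ) (ω : Config) : Iso (keep (Di a c k) ω) a c k ↔ Iso ω a c k := by
  rw [iso_iff, iso_iff]
  refine forall₂_congr fun m hm => ?_
  rw [keep_of_mem (show (m, k) ∈ Di a c k from ⟨hm, rfl⟩)]

theorem exists_iso_pos {ρ : MT → ℝ≥0} {a c : ℤ} (hr : ∀ x, 0 < ρ (Kind.recover, x)) :
    ∃ q : ℝ≥0∞, 0 < q ∧ ∀ k, law ρ {ω | Iso ω a c k} = q := by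
  classical
  refine ⟨∏ m ∈ Bt a c, cellLaw (ρ m) (Bs m), ?_, fun k => ?_⟩
  · rw [pos_iff_ne_zero, Finset.prod_ne_zero_iff]
    rintro ⟨κ, x⟩ -
    cases κ
    · simp only [Bs, if_true]
      exact (cell_pos (hr x)).ne'
    · simp only [Bs, reduceCtorEq, if_false]
      rw [cell_zero]
      simp only [ne_eq, ENNReal.ofReal_eq_zero, not_le]
      positivity
    · simp only [Bs, reduceCtorEq, if_false]
      rw [cell_zero]
      simp only [ne_eq, ENNReal.ofReal_eq_zero, not_le]
      positivity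
  · have h1 : {ω : Config | Iso ω a c k} =
        {ω | ∀ i ∈ (Bt a c).map ⟨fun m => (m, k), fun m m' h => by simpa using h⟩,
          ω i ∈ Bs i.1} := by
      ext ω
      simp only [Set.mem_ofPred_eq, Finset.mem_map, Function.Embedding.coeFn_mk, forall_exists_index,
        and_imp]
      rw [iso_iff]
      constructor
      · rintro h i m hm rfl
        exact h m hm
      · intro h m hm
        exact h (m, k) m hm rfl
    rw [h1, law_box ρ _ (t := fun i => Bs i.1) (fun i _ => measurableSet_Bs i.1), Finset.prod_map]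
    rfl

end P50fc31
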