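import Pool.Agent.Lib.P50fc31.Pos

/-!
# Finite reach in finite time
-/

set_option autoImplicit false

open MeasureTheory ProbabilityTheory Set
open scoped NNReal ENNReal

namespace P50fc31

/-- before time `K` there are no arrows to the right from `N` and no arrows to the left from `-N` -/
def Wall (ω : Config) (N K : ℕ) : Prop :=
  ∀ k < K, (ω ((Kind.right, (N : ℤ)), k)).1 = 0 ∧ (ω ((Kind.left, -(N : ℤ)), k)).1 = 0

theorem Wall.path {ω : Config} {N K : ℕ} (hw : Wall ω N K) {S : Set ℤ} {x y : ℤ} {s t : ℝ}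
    (h : Path ω S x s y t) (ht : t ≤ K) (hx : -(N : ℤ) ≤ x) (hx' : x ≤ N) :
    -(N : ℤ) ≤ y ∧ y ≤ N := by
  have key : ∀ {u : ℝ} {m : MT}, u ∈ marks ω m → u ≤ K → ∃ k < K, 0 < (ω (m, k)).1 := by
    rintro u m ⟨k, n, h1, h2, h3, rfl⟩ hu
    refine ⟨k, ?_, by omega⟩
    have h4 : (k : ℝ) < K := by linarith
    exact_mod_cast h4
  induction h with
  | stay _ _ _ => exact ⟨hx, hx'⟩
  | @right x s u y t h1 h2 h3 h4 h5 ih =>
    refine ih ht (by omega) ?_
    rcases hx'.lt_or_eq with h6 | h6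
    · omega
    · obtain ⟨k, hk, hk'⟩ := key h4 (h5.le.trans ht)
      rw [h6] at hk'
      exact absurd (hw k hk).1 hk'.ne'
  | @left x s u y t h1 h2 h3 h4 h5 ih =>
    refine ih ht ?_ (by omega)
    rcases hx.lt_or_eq with h6 | h6
    · omega
    · obtain ⟨k, hk, hk'⟩ := key h4 (h5.le.trans ht)
      rw [← h6] at hk'
      exact absurd (hw k hk).2 hk'.ne'

theorem ae_wall {lam : ℝ≥0} {ρ : MT → ℝ≥0} {m₀ : ℕ}
    (hρ : ∀ m : MT, (m₀ : ℤ) < |m.2| → ρ m = hom lam m) :
    ∀ᵐ ω ∂(law ρ), ∀ M K : ℕ, ∃ N, M ≤ N ∧ Wall ω N K := by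
  classical
  rw [ae_all_iff]
  intro M
  rw [ae_all_iff]
  intro K
  set b := M + m₀ + 1 with hb
  set F : ℕ → Finset (MT × ℕ) := fun n =>
    ({(Kind.right, ((b + n : ℕ) : ℤ)), (Kind.left, -((b + n : ℕ) : ℤ))} : Finset MT) ×ˢ
      Finset.range K with hF
  set E : ℕ → Set Config := fun n => {ω | Wall ω (b + n) K} with hE
  have hEF : ∀ n, E n = {ω | ∀ i ∈ F n, ω i ∈ {c : Cell | c.1 = 0}} := by
    intro n
    ext ω
    constructor
    · rintro h ⟨m, k⟩ hi
      simp only [hF, Finset.mem_product, Finset.mem_insert, Finset.mem_singleton,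
        Finset.mem_range] at hi
      rcases hi with ⟨rfl | rfl, hk⟩
      · exact (h k hk).1
      · exact (h k hk).2
    · intro h k hk
      exact ⟨h ((Kind.right, ((b + n : ℕ) : ℤ)), k) (by simp [hF, hk]),
        h ((Kind.left, -((b + n : ℕ) : ℤ)), k) (by simp [hF, hk])⟩
  have hm0 : MeasurableSet {c : Cell | c.1 = 0} :=
    measurableSet_eq_fun measurable_fst measurable_const
  have hEm : ∀ n, MeasurableSet (E n) := by
    intro n
    have h1 : E n = ⋂ i ∈ F n, (fun ω : Config => ω i) ⁻¹' {c : Cell | c.1 = 0} := by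
      rw [hEF]
      ext ω
      simp
    rw [h1]
    exact Finset.measurableSet_biInter _ fun i _ => measurable_pi_apply i hm0
  have hD : ∀ m n, m ≠ n → Disjoint ((F m : Finset (MT × ℕ)) : Set (MT × ℕ)) (F n) := by
    intro m n hmn
    rw [Finset.disjoint_coe, Finset.disjoint_left]
    rintro ⟨⟨κ, x⟩, k⟩ h1 h2
    simp only [hF, Finset.mem_product, Finset.mem_insert, Finset.mem_singleton, Finset.mem_range,
      Prod.mk.injEq] at h1 h2
    rcases h1 with ⟨⟨e1, e2⟩ | ⟨e1, e2⟩, -⟩ <;> rcases h2 with ⟨⟨e3, e4⟩ | ⟨e3, e4⟩, -⟩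
    · apply hmn; push_cast at e2 e4; omega
    · rw [e1] at e3; simp at e3
    · rw [e1] at e3; simp at e3
    · apply hmn; push_cast at e2 e4; omega
  have hk : ∀ n ω, keep ((F n : Finset (MT × ℕ)) : Set (MT × ℕ)) ω ∈ E n ↔ ω ∈ E n := by
    intro n ω
    rw [hEF]
    refine forall₂_congr fun i hi => ?_
    rw [keep_of_mem (show i ∈ ((F n : Finset (MT × ℕ)) : Set (MT × ℕ)) from hi)]
  have hp : ∀ n, (ENNReal.ofReal (Real.exp (-lam))) ^ (2 * K) ≤ law ρ (E n) := by
    intro n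
    rw [hEF, law_box ρ (F n) fun _ _ => hm0]
    have h1 : ∀ i ∈ F n, cellLaw (ρ i.1) {c : Cell | c.1 = 0} =
        ENNReal.ofReal (Real.exp (-lam)) := by
      rintro ⟨m, k⟩ hi
      simp only [hF, Finset.mem_product, Finset.mem_insert, Finset.mem_singleton,
        Finset.mem_range] at hi
      rw [cell_zero]
      rcases hi with ⟨rfl | rfl, -⟩
      · rw [hρ _ (by simp only; rw [abs_of_nonneg (by positivity)]; push_cast; omega)]
        rfl
      · rw [hρ _ (by simp only [abs_neg]; rw [abs_of_nonneg (by positivity)]; push_cast; omega)]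
        rfl
    rw [Finset.prod_congr rfl h1, Finset.prod_const]
    have h2 : (F n).card = 2 * K := by
      rw [hF, Finset.card_product, Finset.card_range, Finset.card_pair (by simp)]
    rw [h2]
  have hq : (0 : ℝ≥0∞) < (ENNReal.ofReal (Real.exp (-lam))) ^ (2 * K) := by
    refine ENNReal.pow_pos ?_ _
    simp only [ENNReal.ofReal_pos]
    positivity
  have h3 := law_none ρ hD hEm hk hq hp (u := univ) infinite_univ
  rw [ae_iff]
  refine measure_mono_null ?_ h3
  intro ω hω n _ hn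
  apply hω
  exact ⟨b + n, by omega, hn⟩

/-- the sites that can be reached from `x` before time `K` form a finite set -/
def FinReach (ω : Config) : Prop :=
  ∀ (M K : ℕ), ∃ N : ℕ, ∀ (x y : ℤ) (s t : ℝ), |x| ≤ M → t ≤ K → Path ω univ x s y t → |y| ≤ N

theorem ae_finReach {lam : ℝ≥0} {ρ : MT → ℝ≥0} {m₀ : ℕ}
    (hρ : ∀ m : MT, (m₀ : ℤ) < |m.2| → ρ m = hom lam m) :
    ∀ᵐ ω ∂(law ρ), FinReach ω := by
  filter_upwards [ae_wall hρ] with ω hω M K
  obtain ⟨N, hN, hw⟩ := hω M K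
  refine ⟨N, fun x y s t hx ht h => ?_⟩
  obtain ⟨h1, h2⟩ := abs_le.1 hx
  exact abs_le.2 (hw.path h ht (by omega) (by omega))

/-- König: if infinitely often something reachable inside `S` survives, one start point at time `K` survives -/
theorem exists_surv {ω : Config} {S : Set ℤ} {K : ℕ} {R : Set ℤ} (hR : R.Finite)
    (h : ∀ n : ℕ, K ≤ n → ∃ z ∈ R, ∃ y, Path ω S z K y n) : ∃ z ∈ R, Surv ω S z K := by
  classical
  by_contra hcon
  push Not at hcon
  have h1 : ∀ z : ℤ, ∃ n : ℕ, K ≤ n ∧ (z ∈ R → ∀ y, ¬ Path ω S z K y n) := by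
    intro z
    by_cases hz : z ∈ R
    · have h2 := hcon z hz
      unfold Surv at h2
      push Not at h2
      obtain ⟨n, hn, h3⟩ := h2
      exact ⟨n, by exact_mod_cast hn, fun _ => h3⟩
    · exact ⟨K, le_rfl, fun h => absurd h hz⟩
  choose f hf hf' using h1
  obtain ⟨n, hn⟩ : ∃ n : ℕ, ∀ z ∈ R, f z ≤ n := by
    obtain ⟨n, hn⟩ := (hR.image f).bddAbove
    exact ⟨n, fun z hz => hn ⟨z, hz, rfl⟩⟩
  obtain ⟨z, hz, y, hy⟩ := h (max n K) (le_max_right _ _)
  obtain ⟨w, hw, -⟩ := hy.cut (c := (f z : ℕ)) (by exact_mod_cast hf z) (by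
    exact_mod_cast (hn z hz).trans (le_max_left _ _))
  exact hf' z hz w hw

end P50fc31
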