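import Pool.Agent.Lib.P50fc31.Tail

/-!
# The width of the core does not matter for the homogeneous process
-/

set_option autoImplicit false

open MeasureTheory ProbabilityTheory Set
open scoped NNReal ENNReal

namespace P50fc31

/-- move the sites away from the origin -/
def spr (m : ℕ) (x : ℤ) : ℤ := if 0 < x then x + m else if x < 0 then x - m else 0

theorem spr_pos {m : ℕ} {x : ℤ} (h : 0 < x) : spr m x = x + m := by simp [spr, h]

theorem spr_neg (m : ℕ) (x : ℤ) : spr m (-x) = -spr m x := by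
  unfold spr
  split_ifs <;> omega

theorem spr_inj (m : ℕ) : Function.Injective (spr m) := by
  intro x y h
  unfold spr at h
  split_ifs at h <;> omega

/-- move the coordinates away from the origin -/
def sprIdx (m : ℕ) (i : MT × ℕ) : MT × ℕ := ((i.1.1, spr m i.1.2), i.2)

theorem sprIdx_inj (m : ℕ) : Function.Injective (sprIdx m) := by
  rintro ⟨⟨κ, x⟩, k⟩ ⟨⟨κ', x'⟩, k'⟩ h
  simp only [sprIdx, Prod.mk.injEq] at h
  obtain ⟨⟨h1, h2⟩, h3⟩ := h
  rw [h1, spr_inj m h2, h3]

/-- forget the marks at the sites near the origin and move the others towards the origin -/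
def spread (m : ℕ) (ω : Config) : Config := fun i => ω (sprIdx m i)

theorem measurable_spread (m : ℕ) : Measurable (spread m) :=
  measurable_pi_lambda _ fun _ => measurable_pi_apply _

theorem law_map_spread (lam : ℝ≥0) (m : ℕ) :
    (law (hom lam)).map (spread m) = law (hom lam) := by
  have h1 := Measure.map_infinitePi_infinitePi_of_inj
    (P := fun i : MT × ℕ => cellLaw (hom lam i.1)) (sprIdx_inj m)
  have h2 : (fun i : MT × ℕ => cellLaw (hom lam (sprIdx m i).1)) =
      fun i : MT × ℕ => cellLaw (hom lam i.1) := by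
    funext i
    obtain ⟨⟨κ, x⟩, k⟩ := i
    cases κ <;> rfl
  rw [h2] at h1
  exact h1

theorem flip_spread (m : ℕ) (ω : Config) : flip (spread m ω) = spread m (flip ω) := by
  funext i
  obtain ⟨⟨κ, x⟩, k⟩ := i
  simp only [flip, spread, sprIdx, flipM, spr_neg]

theorem marks_spread (m : ℕ) (ω : Config) (κ : Kind) (x : ℤ) :
    marks (spread m ω) (κ, x) = marks ω (κ, spr m x) := rfl

theorem path_spread {ω : Config} {m : ℕ} {x y : ℤ} {s t : ℝ}
    (h : Path ω (up ((m : ℤ) + 1)) x s y t) :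
    Path (spread m ω) (up 1) (x - m) s (y - m) t := by
  have hm : ∀ {x : ℤ} (κ : Kind), x ∈ up ((m : ℤ) + 1) →
      marks (spread m ω) (κ, x - m) = marks ω (κ, x) := by
    intro x κ hx
    have := mem_up.1 hx
    rw [marks_spread, spr_pos (by omega), sub_add_cancel]
  have hc : ∀ {x : ℤ} {s t : ℝ}, x ∈ up ((m : ℤ) + 1) → Calm ω x s t →
      Calm (spread m ω) (x - m) s t := by
    intro x s t hx h u hu hsu
    rw [hm _ hx] at hu
    exact h u hu hsu
  have hup : ∀ {x : ℤ}, x ∈ up ((m : ℤ) + 1) → x - m ∈ up 1 := by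
    intro x hx
    have := mem_up.1 hx
    exact mem_up.2 (by omega)
  induction h with
  | stay h1 h2 h3 => exact Path.stay (hup h1) h2 (hc h1 h3)
  | @right x s u y t h1 h2 h3 h4 h5 ih =>
    refine Path.right (hup h1) h2 (hc h1 h3) (u := u) ?_ ?_
    · rwa [hm _ h1]
    · have e1 : x - m + 1 = x + 1 - m := by ring
      rw [e1]
      exact ih
  | @left x s u y t h1 h2 h3 h4 h5 ih =>
    refine Path.left (hup h1) h2 (hc h1 h3) (u := u) ?_ ?_
    · rwa [hm _ h1]
    · have e1 : x - m - 1 = x - 1 - m := by ring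
      rw [e1]
      exact ih

theorem crossed_spread {ω : Config} {m k : ℕ} (h : Crossed ω ((m : ℤ) + 1) k) :
    Crossed (spread m ω) 1 k := by
  obtain ⟨s, t, h1, h2, h3, h4⟩ := h
  have h5 := path_spread h4
  have e1 : (m : ℤ) + 1 - m = 1 := by ring
  rw [e1] at h5
  exact ⟨s, t, h1, h2, h3, h5⟩

theorem cov_spread {ω : Config} {m L : ℕ} (h : ω ∈ Cov ((m : ℤ) + 1) L) :
    spread m ω ∈ Cov 1 L := by
  obtain ⟨K, hK⟩ := h
  refine ⟨K, fun k hk => ?_⟩
  rcases hK k hk with h1 | h1
  · exact Or.inl fun j hj hj' => crossed_spread (h1 j hj hj')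
  · refine Or.inr fun j hj hj' => ?_
    rw [flip_spread]
    exact crossed_spread (h1 j hj hj')

theorem ae_cov_one {lam : ℝ≥0} {m L : ℕ}
    (h : ∀ᵐ ω ∂(law (hom lam)), ω ∈ Cov ((m : ℤ) + 1) L) :
    ∀ᵐ ω ∂(law (hom lam)), ω ∈ Cov 1 L := by
  have h1 : ∀ᵐ ω ∂((law (hom lam)).map (spread m)), ω ∈ Cov 1 L := by
    refine (ae_map_iff (p := fun ω => ω ∈ Cov 1 L) (measurable_spread m).aemeasurable
      (measurableSet_Cov 1 L)).2 ?_
    filter_upwards [h] with ω hω
    exact cov_spread hω
  rwa [law_map_spread] at h1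

end P50fc31
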