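import Pool.Agent.Lib.P50fc31.Gap2

/-!
# Zero-one law: if the process survives for some rates on the core then the long intervals are almost
surely crossed in the homogeneous process
-/

set_option autoImplicit false

open MeasureTheory ProbabilityTheory Set
open scoped NNReal ENNReal

namespace P50fc31

/-- Kolmogorov's zero-one law for events that do not depend on the marks before any fixed time -/
theorem zero_one (ρ : MT → ℝ≥0) {E : Set Config} (hE : MeasurableSet E)
    (h : ∀ (N : ℕ) ω, keep {i | N ≤ i.2} ω ∈ E ↔ ω ∈ E) : law ρ E = 0 ∨ law ρ E = 1 := by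
  have h1 : iIndepFun (fun (i : MT × ℕ) (ω : Config) => ω i) (law ρ) :=
    iIndepFun_infinitePi (P := fun i : MT × ℕ => cellLaw (ρ i.1)) (X := fun _ c => c)
      fun i => measurable_id
  refine measure_zero_or_one_of_measurableSet_limsup (ι := MT × ℕ)
    (s := fun i => MeasurableSpace.comap (fun ω : Config => ω i) inferInstance)
    (f := Filter.comap Prod.snd Filter.atTop) (p := fun t => ∃ N : ℕ, t ⊆ {i | i.2 < N})
    (ns := fun N : ℕ => {i | i.2 < N}) (fun i => (measurable_pi_apply i).comap_le) h1.iIndep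
    ?_ ?_ ?_ ?_ ?_
  · rintro t ⟨N, hN⟩
    rw [Filter.mem_comap]
    refine ⟨Set.Ici N, Filter.Ici_mem_atTop N, ?_⟩
    intro i hi hit
    have h2 : i.2 < N := hN hit
    have h3 : N ≤ i.2 := hi
    omega
  · intro a b
    refine ⟨max a b, ?_, ?_⟩
    · intro i (hi : i.2 < a)
      show i.2 < max a b
      exact lt_of_lt_of_le hi (le_max_left _ _)
    · intro i (hi : i.2 < b)
      show i.2 < max a b
      exact lt_of_lt_of_le hi (le_max_right _ _)
  · intro N
    exact ⟨N, subset_rfl⟩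
  · intro i
    exact ⟨i.2 + 1, Nat.lt_succ_self _⟩
  · rw [Filter.limsup_eq_iInf_iSup, MeasurableSpace.measurableSet_iInf]
    intro u
    rw [MeasurableSpace.measurableSet_iInf]
    intro hu
    obtain ⟨v, hv, hvu⟩ := Filter.mem_comap.1 hu
    obtain ⟨N, hN⟩ := Filter.mem_atTop_sets.1 hv
    have h2 := measurableSet_keep hE (h N)
    have h3 : (⨆ i ∈ {i : MT × ℕ | N ≤ i.2},
        MeasurableSpace.comap (fun ω : Config => ω i) inferInstance) ≤
        ⨆ i ∈ u, MeasurableSpace.comap (fun ω : Config => ω i) inferInstance := by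
      refine iSup₂_le fun i hi => ?_
      exact le_iSup₂_of_le i (hvu (hN _ hi)) le_rfl
    exact h3 _ h2

variable {ω : Config} {S : Set ℤ}

theorem calm_unshift {K : ℕ} {x : ℤ} {s t : ℝ} (h : Calm (shift 0 K ω) x s t) (hs : 0 ≤ s) :
    Calm ω x (s + K) (t + K) := by
  intro u hu hsu
  have h1 : u - K ∈ marks (P50fc31.shift 0 K ω) (Kind.recover, x) := by
    rw [mem_marks_shift]
    refine ⟨by linarith, ?_⟩
    rwa [sub_add_cancel, add_zero]
  have := h _ h1 (by linarith)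
  linarith

theorem path_tshift {K : ℕ} {x y : ℤ} {s t : ℝ} (h : Path ω S x s y t) (hs : (K : ℝ) ≤ s) :
    Path (shift 0 K ω) S x (s - K) y (t - K) := by
  have hc : ∀ {x : ℤ} {s t : ℝ}, Calm ω x s t →
      Calm (P50fc31.shift 0 K ω) x (s - K) (t - K) := by
    intro x s t h
    have h1 := h.shift (z := 0) (K := K)
    rwa [sub_zero] at h1
  have hm : ∀ {κ : Kind} {x : ℤ} {u : ℝ}, u ∈ marks ω (κ, x) → (K : ℝ) ≤ u →
      u - K ∈ marks (P50fc31.shift 0 K ω) (κ, x) := by
    intro κ x u hu hK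
    rw [mem_marks_shift]
    have := lt_of_le_of_ne hK (Ne.symm (marks_ne_nat hu K))
    refine ⟨by linarith, ?_⟩
    rwa [sub_add_cancel, add_zero]
  induction h with
  | stay h1 h2 h3 => exact Path.stay h1 (by linarith) (hc h3)
  | right h1 h2 h3 h4 h5 ih =>
    exact Path.right h1 (by linarith) (hc h3) (hm h4 (hs.trans h2)) (ih (hs.trans h2))
  | left h1 h2 h3 h4 h5 ih =>
    exact Path.left h1 (by linarith) (hc h3) (hm h4 (hs.trans h2)) (ih (hs.trans h2))

theorem path_unshift {K : ℕ} {x y : ℤ} {s t : ℝ} (h : Path (shift 0 K ω) S x s y t)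
    (hs : 0 ≤ s) : Path ω S x (s + K) y (t + K) := by
  have hm : ∀ {κ : Kind} {x : ℤ} {u : ℝ}, u ∈ marks (P50fc31.shift 0 K ω) (κ, x) →
      u + K ∈ marks ω (κ, x) := by
    intro κ x u hu
    have h1 := (mem_marks_shift.1 hu).2
    rwa [add_zero] at h1
  induction h with
  | stay h1 h2 h3 => exact Path.stay h1 (by linarith) (calm_unshift h3 hs)
  | right h1 h2 h3 h4 h5 ih =>
    exact Path.right h1 (by linarith) (calm_unshift h3 hs) (hm h4) (ih (hs.trans h2))
  | left h1 h2 h3 h4 h5 ih =>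
    exact Path.left h1 (by linarith) (calm_unshift h3 hs) (hm h4) (ih (hs.trans h2))

theorem crossed_unshift {c : ℤ} {N k : ℕ} (h : Crossed (shift 0 N ω) c k) :
    Crossed ω c (k + N) := by
  obtain ⟨s, t, h1, h2, h3, h4⟩ := h
  refine ⟨s + N, t + N, ?_, ?_, ?_, path_unshift h4 h1⟩
  · have : (0 : ℝ) ≤ N := Nat.cast_nonneg N
    linarith
  · push_cast
    linarith
  · push_cast
    linarith

theorem flip_shift (N : ℕ) (ω : Config) : flip (shift 0 N ω) = shift 0 N (flip ω) := by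
  funext i
  obtain ⟨⟨κ, x⟩, k⟩ := i
  simp only [flip, shift, shiftIdx, flipM, add_zero]

theorem shift_shift (M N : ℕ) (ω : Config) : shift 0 N (shift 0 M ω) = shift 0 (N + M) ω := by
  funext i
  obtain ⟨⟨κ, x⟩, k⟩ := i
  simp only [shift, shiftIdx, add_zero, add_assoc]

theorem cov_of_shift {c : ℤ} {L N : ℕ} (h : shift 0 N ω ∈ Cov c L) : ω ∈ Cov c L := by
  obtain ⟨K, hK⟩ := h
  refine ⟨K + N, fun k hk => ?_⟩
  rcases hK (k - N) (by omega) with h1 | h1
  · refine Or.inl fun j hj hj' => ?_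
    have h2 := crossed_unshift (h1 (j - N) (by omega) (by omega))
    rwa [Nat.sub_add_cancel (by omega)] at h2
  · refine Or.inr fun j hj hj' => ?_
    have h2 := h1 (j - N) (by omega) (by omega)
    rw [flip_shift] at h2
    have h3 := crossed_unshift h2
    rwa [Nat.sub_add_cancel (by omega)] at h3

/-- the tail version of the event `Cov` -/
def TT (c : ℤ) (L : ℕ) : Set Config := {ω | ∀ N, shift 0 N ω ∈ Cov c L}

theorem measurableSet_TT (c : ℤ) (L : ℕ) : MeasurableSet (TT c L) := by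
  unfold TT
  rw [measurableSet_setOfPred]
  exact Measurable.forall fun N => measurableSet_setOfPred.1
    (measurable_shift 0 N (measurableSet_Cov c L))

theorem shift_keep {N N' : ℕ} (h : N' ≤ N) (ω : Config) :
    shift 0 N (keep {i | N' ≤ i.2} ω) = shift 0 N ω := by
  funext i
  show keep {i | N' ≤ i.2} ω (shiftIdx 0 N i) = ω (shiftIdx 0 N i)
  exact keep_of_mem (show N' ≤ i.2 + N by omega)

theorem mem_TT_iff {c : ℤ} {L : ℕ} (N' : ℕ) :
    ω ∈ TT c L ↔ ∀ N, N' ≤ N → shift 0 N ω ∈ Cov c L := by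
  constructor
  · exact fun h N _ => h N
  · intro h N
    have h1 := h (N' + N) (Nat.le_add_right _ _)
    rw [← shift_shift] at h1
    exact cov_of_shift h1

theorem keep_TT (c : ℤ) (L N : ℕ) (ω : Config) :
    keep {i | N ≤ i.2} ω ∈ TT c L ↔ ω ∈ TT c L := by
  rw [mem_TT_iff N, mem_TT_iff (ω := ω) N]
  refine forall₂_congr fun n hn => ?_
  rw [shift_keep hn]

theorem TT_sub (c : ℤ) (L : ℕ) : TT c L ⊆ Cov c L := fun _ h => cov_of_shift (h 0)

/-- a time at which everything started from a finite set has died out -/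
theorem die_time {R : Set ℤ} (hR : R.Finite) {K : ℕ} (h : ∀ x, ¬ Surv ω S x K) :
    ∃ n : ℕ, K ≤ n ∧ ∀ z ∈ R, ∀ y (t : ℝ), (n : ℝ) ≤ t → ¬ Path ω S z K y t := by
  by_contra hcon
  push Not at hcon
  obtain ⟨z, -, hz⟩ := exists_surv (ω := ω) (S := S) (K := K) hR (fun n hn => by
    obtain ⟨z, hz, y, t, ht, hy⟩ := hcon n hn
    obtain ⟨w, hw, -⟩ := hy.cut (c := (n : ℝ)) (by exact_mod_cast hn) ht
    exact ⟨z, hz, w, hw⟩)
  exact h z hz

theorem crossed_shift {c : ℤ} (hF : FinReach ω) (hS : ∀ (x : ℤ) (K : ℕ), ¬ Surv ω (up c) x K)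
    (N : ℕ) : ∃ T : ℕ, ∀ k, T ≤ k → Crossed ω c (k + N) → Crossed (shift 0 N ω) c k := by
  obtain ⟨b, hb⟩ := hF c.natAbs N
  have hR : ({z : ℤ | |z| ≤ b}).Finite := by
    refine (Set.finite_Icc (-(b : ℤ)) b).subset ?_
    intro z hz
    exact abs_le.1 hz
  obtain ⟨n, hn, h1⟩ := die_time (ω := ω) (S := up c) hR (K := N) (fun x => hS x N)
  refine ⟨n, fun k hk h => ?_⟩
  obtain ⟨s, t, k1, k2, k3, k4⟩ := h
  have hkn : (n : ℝ) ≤ k := by exact_mod_cast hk
  have hNn : (N : ℝ) ≤ n := by exact_mod_cast hn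
  have hN0 : (0 : ℝ) ≤ N := Nat.cast_nonneg N
  push_cast at k2 k3
  rcases le_total s N with hs | hs
  · exfalso
    obtain ⟨z, m1, m2⟩ := k4.cut hs (by linarith : (N : ℝ) ≤ t)
    refine h1 z (hb c z s N ?_ le_rfl (m1.mono (subset_univ _))) c t (by linarith) m2
    rw [Int.abs_eq_natAbs]
  · exact ⟨s - N, t - N, by linarith, by linarith, by linarith, path_tshift k4 hs⟩

theorem mem_TT_of_cov {c : ℤ} {L : ℕ} (hF : FinReach ω)
    (hS : ∀ (x : ℤ) (K : ℕ), ¬ Surv ω (up c) x K)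
    (hS' : ∀ (x : ℤ) (K : ℕ), ¬ Surv (flip ω) (up c) x K) (h : ω ∈ Cov c L) : ω ∈ TT c L := by
  intro N
  obtain ⟨K, hK⟩ := h
  obtain ⟨T, hT⟩ := crossed_shift hF hS N
  obtain ⟨T', hT'⟩ := crossed_shift hF.flip hS' N
  refine ⟨max K (max T T'), fun k hk => ?_⟩
  have e1 : K ≤ k := (le_max_left _ _).trans hk
  have e2 : T ≤ k := (le_max_left _ _).trans ((le_max_right _ _).trans hk)
  have e3 : T' ≤ k := (le_max_right _ _).trans ((le_max_right _ _).trans hk)
  rcases hK (k + N) (by omega) with h1 | h1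
  · exact Or.inl fun j hj hj' => hT j (by omega) (h1 (j + N) (by omega) (by omega))
  · refine Or.inr fun j hj hj' => ?_
    rw [flip_shift]
    exact hT' j (by omega) (h1 (j + N) (by omega) (by omega))

/-- if the process survives for some rates on the core then in the homogeneous process almost surely all
intervals of length `L` are eventually crossed -/
theorem ae_cov {lam : ℝ≥0} {m : ℕ} {ρ : MT → ℝ≥0} (h0 : theta lam = 0)
    (hρ : ∀ i : MT, (m : ℤ) < |i.2| → ρ i = hom lam i) (hr : ∀ x, 0 < ρ (Kind.recover, x))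
    {A : Set ℤ} (hA : A.Finite)
    (hs : law ρ {ω | ∀ t : ℝ, 0 ≤ t → (infected ω univ A t).Nonempty} ≠ 0) {M : ℤ}
    (hM : (m : ℤ) ≤ M) {L : ℕ} (hL : 0 < L) : ∀ᵐ ω ∂(law (hom lam)), ω ∈ Cov (M + 1) L := by
  have hM0 : 0 ≤ M := le_trans (Int.natCast_nonneg m) hM
  have h1 : law ρ (Cov (M + 1) L) ≠ 0 := by
    intro h2
    apply hs
    have h3 : ∀ᵐ ω ∂(law ρ), ω ∉ Cov (M + 1) L := measure_eq_zero_iff_ae_notMem.1 h2
    have h4 : ∀ᵐ ω ∂(law ρ), ω ∉ {ω | ∀ t : ℝ, 0 ≤ t → (infected ω univ A t).Nonempty} := by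
      filter_upwards [h3, ae_gap h0 hρ hr] with ω h5 h6 h7
      exact h5 (h6 M hM0 L hL A hA h7)
    exact measure_eq_zero_iff_ae_notMem.2 h4
  have h2 : law (hom lam) (Cov (M + 1) L) ≠ 0 := by
    rw [← law_congr (J := Jc (M + 1) ∪ flipI ⁻¹' Jc (M + 1)) (ρ := ρ) (ρ' := hom lam) ?_
      (measurableSet_Cov (M + 1) L) (keep_Cov (M + 1) L)]
    · exact h1
    · rintro ⟨⟨κ, x⟩, k⟩ (⟨h3, -⟩ | ⟨h3, -⟩)
      · refine hρ _ ?_
        simp only at h3 ⊢
        rw [lt_abs]
        left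
        omega
      · refine hρ _ ?_
        simp only [flipI, flipM] at h3 ⊢
        rw [lt_abs]
        right
        omega
  have hρ' : ∀ i : MT, (m : ℤ) < |i.2| → hom lam i = hom lam i := fun _ _ => rfl
  have hr' : ∀ x, 0 < hom lam (Kind.recover, x) := fun x => one_pos
  have h3 : ∀ᵐ ω ∂(law (hom lam)), ω ∈ Cov (M + 1) L → ω ∈ TT (M + 1) L := by
    filter_upwards [ae_finReach hρ', ae_half h0 hρ' hr', ae_half_flip h0 hρ' hr']
      with ω hF hS hS' h
    exact mem_TT_of_cov hF (hS (M + 1)) (hS' (M + 1)) h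
  have h4 : law (hom lam) (TT (M + 1) L) = 1 := by
    refine (zero_one (hom lam) (measurableSet_TT (M + 1) L)
      fun N ω => keep_TT (M + 1) L N ω).resolve_left ?_
    intro h5
    apply h2
    refine measure_eq_zero_iff_ae_notMem.2 ?_
    filter_upwards [h3, measure_eq_zero_iff_ae_notMem.1 h5] with ω h6 h7 h8
    exact h7 (h6 h8)
  have h5 : ∀ᵐ ω ∂(law (hom lam)), ω ∈ TT (M + 1) L :=
    (prob_compl_eq_zero_iff (measurableSet_TT (M + 1) L)).2 h4
  filter_upwards [h5] with ω h6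
  exact TT_sub _ _ h6

end P50fc31
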