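import Pool.Agent.Lib.P50fc31.Det

/-!
# Windows that are crossed neither from the right nor from the left
-/

set_option autoImplicit false

open MeasureTheory ProbabilityTheory Set
open scoped NNReal ENNReal

namespace P50fc31

/-- the reflection of the coordinates -/
def flipI (i : MT × ℕ) : MT × ℕ := (flipM i.1, i.2)

theorem flipI_flipI (i : MT × ℕ) : flipI (flipI i) = i := by
  simp only [flipI, flipM_flipM]

theorem flip_keep (J : Set (MT × ℕ)) (ω : Config) :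
    flip (keep J ω) = keep (flipI ⁻¹' J) (flip ω) := by
  classical
  funext i
  simp only [flip, keep, flipI, Set.mem_preimage]

theorem keep_mono {J J' : Set (MT × ℕ)} (h : J ⊆ J') {E : Set Config}
    (hE : ∀ ω, keep J ω ∈ E ↔ ω ∈ E) (ω : Config) : keep J' ω ∈ E ↔ ω ∈ E := by
  rw [← hE (keep J' ω), keep_keep h, hE]

theorem keep_flip {J : Set (MT × ℕ)} {E : Set Config} (hE : ∀ ω, keep J ω ∈ E ↔ ω ∈ E)
    (ω : Config) : keep (flipI ⁻¹' J) ω ∈ flip ⁻¹' E ↔ ω ∈ flip ⁻¹' E := by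
  have h1 : flipI ⁻¹' (flipI ⁻¹' J) = J := by
    ext i
    simp only [Set.mem_preimage, flipI_flipI]
  rw [Set.mem_preimage, flip_keep, h1, hE, Set.mem_preimage]

theorem Bs_flipM (m : MT) : Bs (flipM m) = Bs m := by
  obtain ⟨κ, x⟩ := m
  cases κ <;> simp [Bs, flipM, flipK]

/-- the window `k` is crossed from the right or from the left -/
def U2 (c : ℤ) (k : ℕ) : Set Config := {ω | Crossed ω c k} ∪ flip ⁻¹' {ω | Crossed ω c k}

/-- the core is isolated in the window `k` on both sides -/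
def V2 (a c : ℤ) (k : ℕ) : Set Config := {ω | Iso ω a c k} ∩ flip ⁻¹' {ω | Iso ω a c k}

theorem measurableSet_U2 (c : ℤ) (k : ℕ) : MeasurableSet (U2 c k) :=
  (measurableSet_crossed c k).union (measurable_flip (measurableSet_crossed c k))

theorem measurableSet_V2 (a c : ℤ) (k : ℕ) : MeasurableSet (V2 a c k) :=
  (measurableSet_iso a c k).inter (measurable_flip (measurableSet_iso a c k))

theorem keep_U2 (c : ℤ) (k : ℕ) (ω : Config) :
    keep (Jc c ∪ flipI ⁻¹' Jc c) ω ∈ U2 c k ↔ ω ∈ U2 c k := by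
  have h1 := keep_mono (J' := Jc c ∪ flipI ⁻¹' Jc c) Set.subset_union_left
    (E := {ω | Crossed ω c k}) (fun ω => crossed_keep) ω
  have h2 := keep_mono (J' := Jc c ∪ flipI ⁻¹' Jc c) Set.subset_union_right
    (E := flip ⁻¹' {ω | Crossed ω c k}) (keep_flip fun ω => crossed_keep) ω
  exact or_congr h1 h2

theorem keep_V2 (a c : ℤ) (k : ℕ) (ω : Config) :
    keep (Di a c k ∪ flipI ⁻¹' Di a c k) ω ∈ V2 a c k ↔ ω ∈ V2 a c k := by
  have h1 := keep_mono (J' := Di a c k ∪ flipI ⁻¹' Di a c k) Set.subset_union_left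
    (E := {ω | Iso ω a c k}) (fun ω => keep_iso k ω) ω
  have h2 := keep_mono (J' := Di a c k ∪ flipI ⁻¹' Di a c k) Set.subset_union_right
    (E := flip ⁻¹' {ω | Iso ω a c k}) (keep_flip fun ω => keep_iso k ω) ω
  exact and_congr h1 h2

theorem exists_V2_pos {ρ : MT → ℝ≥0} {a c : ℤ} (hr : ∀ x, 0 < ρ (Kind.recover, x)) :
    ∃ q : ℝ≥0∞, 0 < q ∧ ∀ k, law ρ (V2 a c k) = q := by
  classical
  refine ⟨∏ m ∈ Bt a c ∪ (Bt a c).image flipM, cellLaw (ρ m) (Bs m), ?_, fun k => ?_⟩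
  · rw [pos_iff_ne_zero, Finset.prod_ne_zero_iff]
    rintro ⟨κ, x⟩ -
    cases κ
    · simp only [Bs, if_true]
      exact (cell_pos (hr x)).ne'
    · simp only [Bs, reduceCtorEq, if_false]
      rw [cell_zero]
      simp only [ne_eq, ENNReal.ofReal_eq_zero, not_le]
      positivity
    · simp only [Bs, reduceCtorEq, if_false]
      rw [cell_zero]
      simp only [ne_eq, ENNReal.ofReal_eq_zero, not_le]
      positivity
  · have h1 : V2 a c k =
        {ω | ∀ i ∈ (Bt a c ∪ (Bt a c).image flipM).map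
          ⟨fun m => (m, k), fun m m' h => by simpa using h⟩, ω i ∈ Bs i.1} := by
      ext ω
      simp only [V2, Set.mem_inter_iff, Set.mem_preimage, Set.mem_ofPred_eq, Finset.mem_map,
        Function.Embedding.coeFn_mk, forall_exists_index, and_imp]
      rw [iso_iff, iso_iff]
      constructor
      · rintro ⟨h1, h2⟩ i m hm rfl
        rcases Finset.mem_union.1 hm with h3 | h3
        · exact h1 m h3
        · obtain ⟨m', h4, rfl⟩ := Finset.mem_image.1 h3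
          have h5 := h2 m' h4
          rw [Bs_flipM]
          exact h5
      · intro h
        refine ⟨fun m hm => h (m, k) m (Finset.mem_union_left _ hm) rfl, fun m hm => ?_⟩
        have h3 := h (flipM m, k) (flipM m)
          (Finset.mem_union_right _ (Finset.mem_image_of_mem _ hm)) rfl
        rw [Bs_flipM] at h3
        exact h3
    rw [h1, law_box ρ _ (t := fun i => Bs i.1) (fun i _ => measurableSet_Bs i.1), Finset.prod_map]
    rfl

theorem disj_J2 {M : ℤ} (hM : 0 ≤ M) (k : ℕ) : Disjoint (Jc (M + 1) ∪ flipI ⁻¹' Jc (M + 1))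
    (Di (-M) (M + 1) k ∪ flipI ⁻¹' Di (-M) (M + 1) k) := by
  rw [Set.disjoint_left]
  rintro ⟨⟨κ, x⟩, k'⟩ h1 h2
  simp only [Jc, Di, Bt, flipI, flipM, Set.mem_union, Set.mem_preimage, Set.mem_ofPred_eq,
    Finset.mem_union, Finset.mem_product, Finset.mem_Ico, Finset.mem_singleton,
    Prod.mk.injEq] at h1 h2
  cases κ
  · simp [flipK] at h1 h2
    omega
  · simp [flipK] at h1 h2
    omega
  · simp [flipK] at h1 h2
    omega

theorem disj_D2 (a c : ℤ) (m n : ℕ) (hmn : m ≠ n) :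
    Disjoint (Di a c m ∪ flipI ⁻¹' Di a c m) (Di a c n ∪ flipI ⁻¹' Di a c n) := by
  rw [Set.disjoint_left]
  rintro i (⟨-, h1⟩ | ⟨-, h1⟩) (⟨-, h2⟩ | ⟨-, h2⟩) <;>
  · exact hmn (h1.symm.trans h2)

/-- if infinitely many windows are crossed neither from the right nor from the left then almost surely
the core is isolated in infinitely many of them -/
theorem ae_good_two {ρ : MT → ℝ≥0} {M : ℤ} (hM : 0 ≤ M) (hr : ∀ x, 0 < ρ (Kind.recover, x)) :
    ∀ᵐ ω ∂(law ρ), (∀ K, ∃ k, K ≤ k ∧ ω ∉ U2 (M + 1) k) →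
      ∀ K, ∃ k, K ≤ k ∧ ω ∉ U2 (M + 1) k ∧ ω ∈ V2 (-M) (M + 1) k := by
  obtain ⟨q, hq, hq'⟩ := exists_V2_pos (ρ := ρ) (a := -M) (c := M + 1) hr
  refine ae_good ρ (J := Jc (M + 1) ∪ flipI ⁻¹' Jc (M + 1))
    (D := fun k => Di (-M) (M + 1) k ∪ flipI ⁻¹' Di (-M) (M + 1) k)
    (measurableSet_U2 (M + 1)) (measurableSet_V2 (-M) (M + 1)) (keep_U2 (M + 1))
    (keep_V2 (-M) (M + 1)) ?_ (disj_D2 (-M) (M + 1)) hq fun k => (hq' k).ge
  rw [Set.disjoint_iUnion_right]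
  exact disj_J2 hM

variable {ω : Config} {c : ℤ}

/-- one step of the König argument over a window -/
theorem over_window {a : ℤ} {k : ℕ} (hC : ¬ Crossed ω c k) (hI : Iso ω a c k) {S : Set ℤ}
    {x z₀ z₁ y : ℤ} {t : ℝ} (h1 : Path ω S x 0 z₀ k) (h2 : Path ω S z₀ k z₁ ((k : ℝ) + 1))
    (h3 : Path ω S z₁ ((k : ℝ) + 1) y t) (ha : a ≤ z₀) :
    Path ω (up c) x 0 z₁ ((k : ℝ) + 1) ∨ Path ω (up c) z₁ ((k : ℝ) + 1) y t :=
  path_over hC le_rfl h1 (path_window hI.2 h2 le_rfl le_rfl (hI.not_core h2 ha)) h3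

/-- if infinitely often a window is not crossed and the core is isolated in it then the process dies out -/
theorem not_surv_two {M : ℤ} (hM : 0 ≤ M) (hF : FinReach ω)
    (hS : ∀ (x : ℤ) (K : ℕ), ¬ Surv ω (up (M + 1)) x K)
    (hS' : ∀ (x : ℤ) (K : ℕ), ¬ Surv (flip ω) (up (M + 1)) x K)
    (hG : ∀ K, ∃ k, K ≤ k ∧ ω ∉ U2 (M + 1) k ∧ ω ∈ V2 (-M) (M + 1) k) {A : Set ℤ}
    (hA : A.Finite) : ¬ ∀ t : ℝ, 0 ≤ t → (infected ω univ A t).Nonempty := by
  intro hsurv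
  have hdie : ∀ (ω' : Config), (∀ (x : ℤ) (K : ℕ), ¬ Surv ω' (up (M + 1)) x K) →
      ∀ (R : Set ℤ), R.Finite → ∀ K : ℕ, ∃ n : ℕ, K ≤ n ∧ ∀ z ∈ R, ∀ y (t : ℝ), (n : ℝ) ≤ t →
        ¬ Path ω' (up (M + 1)) z K y t := by
    intro ω' h R hR K
    by_contra hcon
    push Not at hcon
    obtain ⟨z, -, hz⟩ := exists_surv (ω := ω') (S := up (M + 1)) (K := K) hR (fun n hn => by
      obtain ⟨z, hz, y, t, ht, hy⟩ := hcon n hn
      obtain ⟨w, hw, -⟩ := hy.cut (c := (n : ℝ)) (by exact_mod_cast hn) ht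
      exact ⟨z, hz, w, hw⟩)
    exact h z K hz
  have hnA : ((fun x : ℤ => -x) '' A).Finite := hA.image _
  obtain ⟨n₁, -, h1⟩ := hdie ω hS A hA 0
  obtain ⟨n₂, -, h2⟩ := hdie (flip ω) hS' _ hnA 0
  obtain ⟨k, hk, hU, hV1, hV2⟩ := hG (max n₁ n₂)
  have hC1 : ¬ Crossed ω (M + 1) k := fun h => hU (Or.inl h)
  have hC2 : ¬ Crossed (flip ω) (M + 1) k := fun h => hU (Or.inr h)
  have hk1 : (n₁ : ℝ) ≤ (k : ℝ) + 1 := by
    have : (n₁ : ℝ) ≤ k := by exact_mod_cast (le_max_left _ _).trans hk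
    linarith
  have hk2 : (n₂ : ℝ) ≤ (k : ℝ) + 1 := by
    have : (n₂ : ℝ) ≤ k := by exact_mod_cast (le_max_right _ _).trans hk
    linarith
  obtain ⟨B, hB⟩ : ∃ B : ℕ, ∀ x ∈ A, |x| ≤ B := by
    obtain ⟨b, hb⟩ := (hA.image fun x : ℤ => |x|).bddAbove
    exact ⟨b.natAbs, fun x hx => (hb ⟨x, hx, rfl⟩).trans (by omega)⟩
  obtain ⟨N, hN⟩ := hF B (k + 1)
  have hR : ({z : ℤ | |z| ≤ N}).Finite := by
    refine (Set.finite_Icc (-(N : ℤ)) N).subset ?_
    intro z hz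
    exact abs_le.1 hz
  obtain ⟨n₃, hn₃, h3⟩ := hdie ω hS _ hR (k + 1)
  obtain ⟨n₄, hn₄, h4⟩ := hdie (flip ω) hS' _ hR (k + 1)
  set n := max n₃ n₄ with hn
  have hn' : (k : ℝ) + 1 ≤ n := by exact_mod_cast hn₃.trans (le_max_left _ _)
  obtain ⟨y, x, hx, hy⟩ := hsurv n (Nat.cast_nonneg n)
  obtain ⟨z₀, k1, k2⟩ := hy.cut (Nat.cast_nonneg k) (by linarith : (k : ℝ) ≤ n)
  obtain ⟨z₁, k3, k4⟩ := k2.cut (c := (k : ℝ) + 1) (by linarith) hn'
  have hz₁ : |z₁| ≤ N := hN x z₁ 0 ((k : ℝ) + 1) (hB x hx) (by push_cast; exact le_rfl)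
    (k1.trans k3)
  rcases le_total (-M) z₀ with hz | hz
  · rcases over_window hC1 hV1 k1 k3 k4 hz with h6 | h6
    · have := h1 x hx z₁ ((k : ℝ) + 1) hk1
      rw [Nat.cast_zero] at this
      exact this h6
    · have := h3 z₁ hz₁ y n (by exact_mod_cast le_max_left _ _)
      rw [Nat.cast_add, Nat.cast_one] at this
      exact this h6
  · by_cases hzM : -M ≤ -z₀
    · rcases over_window hC2 hV2 k1.flip k3.flip k4.flip hzM with h6 | h6
      · have := h2 (-x) ⟨x, hx, rfl⟩ (-z₁) ((k : ℝ) + 1) hk2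
        rw [Nat.cast_zero] at this
        exact this h6
      · have := h4 (-z₁) (show |(-z₁)| ≤ (N : ℤ) by rwa [abs_neg]) (-y) n
          (by exact_mod_cast le_max_right _ _)
        rw [Nat.cast_add, Nat.cast_one] at this
        exact this h6
    · omega

end P50fc31
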